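import Pool.Agent.R318.MU.Sq

/-!
Library R318.MU (helper318): the two theorems on the window sums in an abstract form.
-/

set_option autoImplicit false

namespace Pool.Agent.R318.MU

open Finset
open Pool.Agent.R509.TT (W Pm W_add W_smul W_one W_mono W_abs_le W_abs W_shift W_sum)

variable {l v w g P : ℕ → ℝ}

lemma cst_le (j : ℕ) : cst j ≤ 1 := by
  unfold cst
  have hj : (0 : ℝ) ≤ j := Nat.cast_nonneg j
  split_ifs with h
  · rw [div_le_one (by positivity)]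
    linarith
  · have h3 : (3 : ℝ) ≤ j := by exact_mod_cast (by omega : 3 ≤ j)
    rw [div_le_one (by positivity)]
    linarith

lemma cst_nonneg (j : ℕ) : 0 ≤ cst j := by
  unfold cst
  split_ifs <;> positivity

lemma W_shift_eq (P : ℕ → ℝ) (m H x : ℕ) : W P H (x + m) = W (fun n => P (n + m)) H x := by
  unfold W
  apply sum_congr rfl
  intro i _
  simp only
  congr 1
  ring

lemma shift_mom (hP1 : ∀ n, |P n| ≤ 1) (m0 : ℕ) (hP : ∀ n, P (n + m0) = w n * g n) (j H N : ℕ) :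
    ∑ x ∈ Icc 1 N, |W P H x| ^ j ≤ ∑ x ∈ Icc 1 N, |W (fun n => w n * g n) H x| ^ j + m0 * (H : ℝ) ^ j := by
  have h1 := shift_le (fun x => |W P H x| ^ j) ((H : ℝ) ^ j) (fun n => by positivity)
    (fun n => pow_le_pow_left₀ (abs_nonneg _) (W_abs_le hP1 H n) j) m0 N
  have h2 : ∀ x ∈ Icc 1 N, (fun x => |W P H x| ^ j) (x + m0) = |W (fun n => w n * g n) H x| ^ j := by
    intro x _
    simp only
    rw [W_shift_eq]
    simp only [hP]
  rw [sum_congr rfl h2] at h1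
  have := (abs_le.1 h1).1
  linarith

lemma Icc_range (w : ℕ → ℝ) (N : ℕ) : ∑ n ∈ Icc 1 N, w n + w 0 = ∑ n ∈ range N, w n + w N := by
  rw [← sum_range_succ, sum_range_succ']
  congr 1
  have h := W_Ioc w N 0
  have h2 : Ioc 0 (0 + N) = Icc 1 N := by
    ext n
    rw [mem_Ioc, mem_Icc]
    omega
  rw [h2] at h
  rw [h]
  unfold W
  apply sum_congr rfl
  intro i _
  congr 1
  ring

lemma dens_low (hw : Wt w) (hg : Pm g) (hP1 : ∀ n, |P n| ≤ 1) (m0 : ℕ)
    (hP : ∀ n, P (n + m0) = w n * g n) (N : ℕ) : ∑ n ∈ range N, w n - 1 - m0 ≤ ∑ n ∈ Icc 1 N, |P n| := by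
  have h1 := shift_le (fun n => |P n|) 1 (fun n => abs_nonneg _) hP1 m0 N
  have h2 : ∀ x ∈ Icc 1 N, (fun n => |P n|) (x + m0) = w x := by
    intro x _
    simp only
    rw [hP, hw.abs_mul hg]
  rw [sum_congr rfl h2] at h1
  have h3 := (abs_le.1 h1).2
  have h4 := Icc_range w N
  have h5 := hw.le_one 0
  have h6 := hw.nonneg N
  linarith

lemma dens_low' (hw : Wt w) (hg : Pm g) (hP1 : ∀ n, |P n| ≤ 1) (m0 : ℕ)
    (hP : ∀ n, P (n + m0) = w n * g n) (a : ℝ) (ha : 0 < a) (θ : ℝ) (hθ : 0 < θ) (N₀ : ℕ)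
    (hlow : ∀ N, N₀ ≤ N → (1 - θ) * (a * N) ≤ ∑ n ∈ range N, w n) :
    ∃ C : ℕ, ∀ N : ℕ, C ≤ N → (1 - 2 * θ) * (a * N) ≤ ∑ n ∈ Icc 1 N, |P n| := by
  obtain ⟨C, hC⟩ := exists_nat_ge (((m0 : ℝ) + 1) / (θ * a))
  refine ⟨N₀ + C, fun N hN => ?_⟩
  have h1 := dens_low hw hg hP1 m0 hP N
  have h2 := hlow N (by omega)
  rw [div_le_iff₀ (by positivity)] at hC
  have h3 : (C : ℝ) * (θ * a) ≤ N * (θ * a) :=
    mul_le_mul_of_nonneg_right (by exact_mod_cast (by omega : C ≤ N)) (by positivity)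
  nlinarith

/-- the moments, for a difference which is divisible by the period -/
theorem abs2 (hl : Pm l) (hv : Wt v) (hw : Wt w) (hwv : ∀ n, w n ≤ v n) (hg : Pm g) {A : ℕ} (hA : 1 ≤ A)
    (hp : ∀ n, v (n + A) = v n) (ha : 0 < den v A) {E : Set ℕ} (hE : Exc l v E) (m : ℕ) (hm : 1 ≤ m)
    (hAm : A ∣ m) (d : ℕ) (hAd : A ∣ d) (hgd : ∀ n, g n * g (n + d) = l n * l (n + m))
    (hP1 : ∀ n, |P n| ≤ 1) (m0 : ℕ) (hP : ∀ n, P (n + m0) = w n * g n)
    (θ : ℝ) (hθ : 0 < θ) (N₀ : ℕ) (hlow : ∀ N, N₀ ≤ N → (1 - θ) * (den v A * N) ≤ ∑ n ∈ range N, w n)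
    (j : ℕ) (η : ℝ) (hη : 0 < η) (hη1 : η ≤ 1) (hθη : 2 * θ * j * 4 ^ j ≤ η / 8) (hθ2 : θ ≤ 1 / 2) :
    ∃ C : ℕ, ∀ H N : ℕ, C ≤ H → C * H ≤ N → N ∉ E →
      ∑ x ∈ Icc 1 N, |∑ n ∈ Ioc x (x + H), P n| ^ j ≤
        (cst j + η) * ((∑ n ∈ Icc 1 N, |P n|) / N * H) ^ j * N := by
  set a := den v A with had
  obtain ⟨C1, hC1⟩ := momg hl hv hA hp ha hE m hm hAm g hg d hAd hgd j (η / 8) (by positivity)
  obtain ⟨C2, hC2⟩ := sub_mom hg hv hw hwv hA hp ha θ hθ N₀ hlow j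
  obtain ⟨C3, hC3⟩ := dens_low' hw hg hP1 m0 hP a ha θ hθ N₀ hlow
  obtain ⟨C4, hC4⟩ := exists_nat_ge ((m0 : ℝ) / (η / 8 * a ^ j))
  refine ⟨C1 + C2 + C3 + C4 + 1, fun H N hH hN hNE => ?_⟩
  have hNC : C1 + C2 + C3 + C4 + 1 ≤ N := le_trans (Nat.le_mul_of_pos_right _ (by omega)) hN
  have hH0 : (0 : ℝ) < H := by exact_mod_cast (by omega : 0 < H)
  have hN0 : (0 : ℝ) < N := by exact_mod_cast (by omega : 0 < N)
  have h1 := hC1 H N (by omega) (le_trans (Nat.mul_le_mul_right H (by omega)) hN) hNE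
  have h2 := hC2 H N (by omega) (le_trans (Nat.mul_le_mul_right H (by omega)) hN)
  have h3 := hC3 N (by omega)
  have h4 := shift_mom hP1 m0 hP j H N
  simp only [W_Ioc]
  set S := ∑ n ∈ Icc 1 N, |P n| with hS
  set V : ℝ := a * H with hV
  have hV0 : 0 < V := by positivity
  -- the boundary
  have h5 : m0 * (H : ℝ) ^ j ≤ η / 8 * (V ^ j * N) := by
    rw [div_le_iff₀ (by positivity)] at hC4
    have e1 : (C4 : ℝ) * (η / 8 * a ^ j) ≤ N * (η / 8 * a ^ j) :=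
      mul_le_mul_of_nonneg_right (by exact_mod_cast (by omega : C4 ≤ N)) (by positivity)
    have e2 := mul_le_mul_of_nonneg_right (hC4.trans e1) (by positivity : 0 ≤ (H : ℝ) ^ j)
    refine e2.trans (le_of_eq ?_)
    rw [hV, mul_pow]
    ring
  -- the main term
  have h6 : (1 - 2 * θ) * V ≤ S / N * H := by
    rw [div_mul_eq_mul_div, le_div_iff₀ hN0]
    have := mul_le_mul_of_nonneg_right h3 hH0.le
    refine le_trans (le_of_eq ?_) this
    rw [hV]; ring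
  have h7 : (1 - j * (2 * θ)) * V ^ j ≤ (S / N * H) ^ j := by
    have e1 := pow_le_pow_left₀ (mul_nonneg (by linarith) hV0.le) h6 j
    refine le_trans ?_ e1
    rw [mul_pow (1 - 2 * θ) V j]
    apply mul_le_mul_of_nonneg_right _ (by positivity)
    have := one_add_mul_le_pow (show (-2 : ℝ) ≤ -(2 * θ) by linarith) j
    refine le_trans (le_of_eq ?_) (this.trans (le_of_eq ?_)) <;> ring
  have h8 : ∑ x ∈ Icc 1 N, |W P H x| ^ j ≤ (cst j + 3 * η / 8) * (V ^ j * N) := by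
    have e1 : 2 * θ * j * 4 ^ j * (V ^ j * N) ≤ η / 8 * (V ^ j * N) :=
      mul_le_mul_of_nonneg_right hθη (by positivity)
    linarith
  refine h8.trans ?_
  have h9 : cst j + 3 * η / 8 ≤ (cst j + η) * (1 - j * (2 * θ)) := by
    have e1 : (j : ℝ) * (2 * θ) ≤ η / 8 := by
      refine le_trans ?_ hθη
      have : (1 : ℝ) ≤ 4 ^ j := one_le_pow₀ (by norm_num)
      have e2 : 0 ≤ 2 * θ * j := by positivity
      nlinarith
    have e2 := cst_le j
    have e3 := cst_nonneg j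
    have e4 : 0 ≤ (j : ℝ) * (2 * θ) := by positivity
    nlinarith
  calc (cst j + 3 * η / 8) * (V ^ j * N) ≤ (cst j + η) * (1 - j * (2 * θ)) * (V ^ j * N) :=
        mul_le_mul_of_nonneg_right h9 (by positivity)
    _ = (cst j + η) * ((1 - j * (2 * θ)) * V ^ j) * N := by ring
    _ ≤ (cst j + η) * ((S / N * H) ^ j) * N := by
        apply mul_le_mul_of_nonneg_right _ hN0.le
        exact mul_le_mul_of_nonneg_left h7 (by have := cst_nonneg j; linarith)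

/-- the general case -/
theorem abs1 (hl : Pm l) (hv : Wt v) (hw : Wt w) (hwv : ∀ n, w n ≤ v n) (hg : Pm g) {A : ℕ} (hA : 1 ≤ A)
    (hp : ∀ n, v (n + A) = v n) (ha : 0 < den v A) {E : Set ℕ} (m : ℕ) (hm : 1 ≤ m)
    (d : ℕ) (hE : Exc l (fun n => v n * v (n + d)) E) (hgd : ∀ n, g n * g (n + d) = l n * l (n + m))
    (hP1 : ∀ n, |P n| ≤ 1) (m0 : ℕ) (hP : ∀ n, P (n + m0) = w n * g n)
    (θ : ℝ) (hθ : 0 < θ) (N₀ : ℕ) (hlow : ∀ N, N₀ ≤ N → (1 - θ) * (den v A * N) ≤ ∑ n ∈ range N, w n)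
    (j : ℕ) (η : ℝ) (hη : 0 < η) (hθη : 3 * θ * j * 4 ^ j ≤ η / 8) (hθ2 : θ ≤ 1 / 2) :
    ∃ C : ℕ, ∀ H N : ℕ, C ≤ H → C * H ≤ N → N ∉ E →
      ∑ x ∈ Icc 1 N, |∑ n ∈ Ioc x (x + H), P n| ^ j ≤
        ((((∑ n ∈ Icc 1 N, |P n|) / N) ^ j +
          ((∑ n ∈ Icc 1 N, |P n| - ∑ n ∈ Icc 1 N, |P n * P (n + d)|) / N) ^ j) / 2 + η) * H ^ j * N := by
  set v2 : ℕ → ℝ := fun n => v n * v (n + d) with hv2d
  have hv2 : Wt v2 := hv.mul (fun n => hv (n + d))
  have hp2 : ∀ n, v2 (n + A) = v2 n := by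
    intro n
    simp only [hv2d, hp]
    rw [show n + A + d = n + d + A by ring, hp]
  set a := den v A with had
  set b := den v2 A with hbd
  have ha1 : a ≤ 1 := den_le_one hv A
  have hb0 : 0 ≤ b := den_nonneg hv2 A
  have hba : b ≤ a := by
    rw [hbd, had]
    unfold den
    apply div_le_div_of_nonneg_right _ (Nat.cast_nonneg _)
    apply sum_le_sum
    intro n _
    simp only [hv2d]
    rcases hv n with h | h <;> rcases hv (n + d) with h' | h' <;> rw [h, h'] <;> norm_num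
  obtain ⟨C1, hC1⟩ := genmom hl hv hA hp m hm d hE g hg hgd j (η / 8) (by positivity)
  obtain ⟨C2, hC2⟩ := sub_mom hg hv hw hwv hA hp ha θ hθ N₀ hlow j
  obtain ⟨C3, hC3⟩ := dens_low' hw hg hP1 m0 hP a ha θ hθ N₀ hlow
  obtain ⟨C4, hC4⟩ := exists_nat_ge ((m0 : ℝ) / (η / 8))
  obtain ⟨C5, hC5⟩ := exists_nat_ge (((A + m0 : ℕ) : ℝ) / θ)
  refine ⟨C1 + C2 + C3 + C4 + C5 + 1, fun H N hH hN hNE => ?_⟩
  have hNC : C1 + C2 + C3 + C4 + C5 + 1 ≤ N := le_trans (Nat.le_mul_of_pos_right _ (by omega)) hN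
  have hH0 : (0 : ℝ) < H := by exact_mod_cast (by omega : 0 < H)
  have hN0 : (0 : ℝ) < N := by exact_mod_cast (by omega : 0 < N)
  have h1 := hC1 H N (by omega) (le_trans (Nat.mul_le_mul_right H (by omega)) hN) hNE
  have h2 := hC2 H N (by omega) (le_trans (Nat.mul_le_mul_right H (by omega)) hN)
  have h3 := hC3 N (by omega)
  have h4 := shift_mom hP1 m0 hP j H N
  simp only [W_Ioc]
  set S := ∑ n ∈ Icc 1 N, |P n| with hS
  set T := ∑ n ∈ Icc 1 N, |P n * P (n + d)| with hT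
  have hTS : T ≤ S := by
    apply sum_le_sum
    intro n _
    rw [_root_.abs_mul]
    exact mul_le_of_le_one_right (abs_nonneg _) (hP1 _)
  have hT0 : 0 ≤ T := sum_nonneg fun n _ => abs_nonneg _
  have hS1 : S / N ≤ 1 := by
    rw [div_le_one hN0]
    refine (sum_le_sum fun n _ => hP1 n).trans (le_of_eq ?_)
    simp
  -- the boundary
  have h5 : m0 * (H : ℝ) ^ j ≤ η / 8 * (H ^ j * N) := by
    rw [div_le_iff₀ (by positivity)] at hC4
    have e1 : (C4 : ℝ) * (η / 8) ≤ N * (η / 8) :=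
      mul_le_mul_of_nonneg_right (by exact_mod_cast (by omega : C4 ≤ N)) (by positivity)
    have e2 := mul_le_mul_of_nonneg_right (hC4.trans e1) (by positivity : 0 ≤ (H : ℝ) ^ j)
    refine e2.trans (le_of_eq ?_)
    ring
  have h6 : a ≤ S / N + 3 * θ := by
    have e1 : (1 - 2 * θ) * a ≤ S / N := by
      rw [le_div_iff₀ hN0]
      linarith
    nlinarith
  have h7 : T ≤ b * N + A + m0 := by
    have e1 := shift_le (fun n => |P n * P (n + d)|) 1 (fun n => abs_nonneg _)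
      (fun n => by rw [_root_.abs_mul]; exact mul_le_one₀ (hP1 _) (abs_nonneg _) (hP1 _)) m0 N
    have e2 : ∀ x ∈ Icc 1 N, (fun n => |P n * P (n + d)|) (x + m0) = w x * w (x + d) := by
      intro x _
      simp only
      rw [show x + m0 + d = x + d + m0 by ring, hP, hP, _root_.abs_mul, hw.abs_mul hg, hw.abs_mul hg]
    rw [sum_congr rfl e2] at e1
    have e3 := (abs_le.1 e1).1
    have e4 : ∑ x ∈ Icc 1 N, w x * w (x + d) ≤ ∑ x ∈ Icc 1 N, v2 x := by
      apply sum_le_sum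
      intro x _
      exact mul_le_mul (hwv x) (hwv (x + d)) (hw.nonneg _) (hv.nonneg _)
    have e5 := Icc_up hv2 hA hp2 N
    rw [mul_one] at e3
    linarith
  have h8 : T / N ≤ b + θ := by
    rw [div_le_iff₀ hN0]
    rw [div_le_iff₀ hθ] at hC5
    have e1 : (C5 : ℝ) * θ ≤ N * θ := mul_le_mul_of_nonneg_right (by exact_mod_cast (by omega : C5 ≤ N)) hθ.le
    push_cast at hC5
    linarith
  have h9 : a - b ≤ (S - T) / N + 3 * θ := by
    have e1 : (1 - 2 * θ) * a ≤ S / N := by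
      rw [le_div_iff₀ hN0]
      linarith
    rw [sub_div]
    nlinarith
  have hq : 0 ≤ (S - T) / N := div_nonneg (by linarith) hN0.le
  have hS0 : 0 ≤ S / N := div_nonneg (by linarith) hN0.le
  have hq1 : (S - T) / N ≤ 1 := by
    refine le_trans ?_ hS1
    exact div_le_div_of_nonneg_right (by linarith) hN0.le
  have hpw : ∀ y z : ℝ, 0 ≤ z → z ≤ y + 3 * θ → 0 ≤ y → y ≤ 1 → z ^ j ≤ y ^ j + η / 8 := by
    intro y z hz hzy hy hy1
    have e1 := pow_le_pow_left₀ hz hzy j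
    have e2 := pow_add_le y (3 * θ) 4 hy (by positivity) (by linarith) j
    have e3 : (j : ℝ) * 4 ^ (j - 1) * (3 * θ) ≤ 3 * θ * j * 4 ^ j := by
      have e4 : (4 : ℝ) ^ (j - 1) ≤ 4 ^ j := pow_le_pow_right₀ (by norm_num) (by omega)
      have e5 : 0 ≤ 3 * θ * j := by positivity
      nlinarith
    linarith
  have h10 := hpw (S / N) a ha.le h6 hS0 hS1
  have h11 := hpw ((S - T) / N) (a - b) (by linarith) h9 hq hq1
  have h12 : 2 * θ * j * 4 ^ j * ((a * H) ^ j * N) ≤ η / 8 * (H ^ j * N) := by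
    have e1 : (a * H) ^ j ≤ (H : ℝ) ^ j := by
      apply pow_le_pow_left₀ (by positivity)
      exact mul_le_of_le_one_left hH0.le ha1
    have e2 : 2 * θ * j * 4 ^ j ≤ η / 8 := by
      refine le_trans ?_ hθη
      have : 0 ≤ θ * j * 4 ^ j := by positivity
      nlinarith
    exact mul_le_mul e2 (mul_le_mul_of_nonneg_right e1 hN0.le) (by positivity) (by positivity)
  have h13 : (((a ^ j + (a - b) ^ j) / 2 + η / 8) * H ^ j * N) ≤
      (((S / N) ^ j + ((S - T) / N) ^ j) / 2 + 2 * (η / 8)) * H ^ j * N := by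
    apply mul_le_mul_of_nonneg_right _ hN0.le
    apply mul_le_mul_of_nonneg_right _ (by positivity)
    linarith
  have h14 : 0 ≤ η * (H ^ j * N) := by positivity
  have h15 : (((S / N) ^ j + ((S - T) / N) ^ j) / 2 + 2 * (η / 8)) * H ^ j * N =
      (((S / N) ^ j + ((S - T) / N) ^ j) / 2 + η) * H ^ j * N - 6 / 8 * (η * (H ^ j * N)) := by ring
  rw [h15] at h13
  linarith

end Pool.Agent.R318.MU
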