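import Pool.Agent.R318.MU.Win

/-!
Library R318.MU (helper318): all the moments of the window means of `(1 + l(n) l(n + m)) / 2` over a
periodic set (after `R509.TT` of helper509).
-/

set_option autoImplicit false

namespace Pool.Agent.R318.MU

open Finset
open Pool.Agent.R509.TT (W Pm W_add W_smul W_one W_mono W_abs_le W_abs W_shift W_sum kap kap_two
  kap_mono hinge_avg moments)

/-- the constants -/
noncomputable def cst (j : ℕ) : ℝ := if j ≤ 2 then 1 / ((j : ℝ) + 1) else 4 / (3 * ((j : ℝ) + 1))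

/-- the normalised window mean -/
noncomputable def TT (l v : ℕ → ℝ) (m H x : ℕ) : ℝ := W (pv l v m) H x / W v H x

/-- the property of the exceptional set -/
def Exc (l v : ℕ → ℝ) (E : Set ℕ) : Prop := ∀ h : ℕ, 1 ≤ h → ∀ δ : ℝ, 0 < δ →
    ∃ N₀ : ℕ, ∀ N : ℕ, N₀ ≤ N → N ∉ E → |∑ n ∈ range N, pv l v h n| ≤ δ * N

variable {l v : ℕ → ℝ}

lemma exc_win (hl : Pm l) (hv : Wt v) {E : Set ℕ} (hE : Exc l v E) (h : ℕ) (hh : 1 ≤ h) (δ : ℝ)
    (hδ : 0 < δ) : ∃ C : ℕ, ∀ H N : ℕ, C ≤ H → C * H ≤ N → N ∉ E →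
      |∑ x ∈ Icc 1 N, W (pv l v h) H x| ≤ δ * H * N := by
  obtain ⟨N₀, hN₀⟩ := hE h hh (δ / 2) (by positivity)
  obtain ⟨K, hK⟩ := exists_nat_ge (8 / δ)
  refine ⟨N₀ + K + 1, fun H N hH hN hNE => ?_⟩
  have hH1 : (1 : ℝ) ≤ H := by exact_mod_cast (by omega : 1 ≤ H)
  have hCN : N₀ + K + 1 ≤ N := le_trans (Nat.le_mul_of_pos_right _ (by omega)) hN
  have h1 := W_sum (pv_abs hl hv h) H N
  have h2 := hN₀ N (by omega) hNE
  refine h1.trans ?_
  have h3 : 8 / δ * H ≤ N := by
    have h4 : ((N₀ + K + 1 : ℕ) : ℝ) * H ≤ N := by exact_mod_cast hN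
    refine le_trans ?_ h4
    apply mul_le_mul_of_nonneg_right _ (by linarith)
    refine hK.trans ?_
    exact_mod_cast (by omega : K ≤ N₀ + K + 1)
  have h4 : 8 * (H : ℝ) ≤ δ * N := by
    rw [div_mul_eq_mul_div, div_le_iff₀ hδ] at h3
    linarith
  have h5 : |∑ n ∈ range N, pv l v h n| + 2 * ((H : ℝ) + 1) ≤ δ * N := by linarith
  calc (H : ℝ) * (|∑ n ∈ range N, pv l v h n| + 2 * (H + 1)) ≤ H * (δ * N) :=
        mul_le_mul_of_nonneg_left h5 (by linarith)
    _ = δ * H * N := by ring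

/-- `W v H x` is close to `a H` -/
lemma W_close {A : ℕ} (hv : Wt v) (hA : 1 ≤ A) (hp : ∀ n, v (n + A) = v n) (ha : 0 < den v A) (δ : ℝ)
    (hδ : 0 < δ) : ∃ C : ℕ, ∀ H x : ℕ, C ≤ H →
      (1 - δ) * (den v A * H) ≤ W v H x ∧ W v H x ≤ (1 + δ) * (den v A * H) := by
  obtain ⟨K, hK⟩ := exists_nat_ge ((A : ℝ) / (δ * den v A))
  refine ⟨K, fun H x hH => ?_⟩
  have h1 := abs_le.1 (W_per hv hA hp H x)
  rw [div_le_iff₀ (by positivity)] at hK
  have h2 : (K : ℝ) * (δ * den v A) ≤ H * (δ * den v A) :=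
    mul_le_mul_of_nonneg_right (by exact_mod_cast hH) (by positivity)
  constructor <;> nlinarith

lemma TT_abs (hl : Pm l) (hv : Wt v) (m H x : ℕ) (h0 : 0 < W v H x) : |TT l v m H x| ≤ 1 := by
  unfold TT
  rw [abs_div, abs_of_pos h0, div_le_one h0]
  exact W_pv_abs hl hv m H x

lemma ar1 (J K m : ℝ) (h7 : J ^ 2 ≤ (K + 1) ^ 2) (hm0 : 0 ≤ m) :
    (J ^ 2 - 1) / 3 * (8 * m) ≤ 6 * (K + 1) ^ 2 * m := by
  have e : (J ^ 2 - 1) / 3 * (8 * m) = (8 / 3 * (J ^ 2 - 1)) * m := by ring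
  rw [e]
  apply mul_le_mul_of_nonneg_right _ hm0
  nlinarith [sq_nonneg (K + 1)]

lemma ar2 (a δ δ2 H w : ℝ) (hδ : 0 < δ) (hδ2 : δ2 ≤ 1 / 4) (hV0 : 0 < a * H) (ha1 : a ≤ 1)
    (hlow : (1 - δ2) * (a * H) ≤ w) : δ * a / 12 * a * H ≤ 3 * δ * w := by
  have h12 : (3 / 4 : ℝ) * (a * H) ≤ w := by
    refine le_trans (mul_le_mul_of_nonneg_right (by linarith) hV0.le) hlow
  have h13 : δ * ((3 / 4 : ℝ) * (a * H)) ≤ δ * w := mul_le_mul_of_nonneg_left h12 hδ.le
  have h14 : 0 < δ * (a * H) := by positivity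
  have h15 : δ * a / 12 * a * H = a / 12 * (δ * (a * H)) := by ring
  have h16 : a / 12 * (δ * (a * H)) ≤ 1 / 12 * (δ * (a * H)) :=
    mul_le_mul_of_nonneg_right (by linarith) h14.le
  linarith

lemma ar3 (J δ2 V w y : ℝ) (hJ0 : 0 < J) (hδ20 : 0 < δ2) (hδ2b : δ2 ≤ 1 / 4) (hV0 : 0 < V)
    (hw : 0 < w) (hlow : (1 - δ2) * V ≤ w) (hy : 0 ≤ y) :
    y / (J ^ 2 * w) ≤ (1 + 2 * δ2) / (J ^ 2 * V) * y := by
  have h4 : V ≤ (1 + 2 * δ2) * w := by
    have h6 : (1 + 2 * δ2) * ((1 - δ2) * V) ≤ (1 + 2 * δ2) * w :=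
      mul_le_mul_of_nonneg_left hlow (by positivity)
    have h7 : 1 ≤ (1 + 2 * δ2) * (1 - δ2) := by nlinarith
    have h8 := mul_le_mul_of_nonneg_right h7 hV0.le
    linarith
  rw [div_mul_eq_mul_div, div_le_div_iff₀ (by positivity) (by positivity)]
  have h5 := mul_le_mul_of_nonneg_left h4 (mul_nonneg hy (sq_nonneg J))
  linarith

lemma ar4 (δ δ2 y : ℝ) (h : 0 < δ) (h0 : 0 < δ2) (ha : δ2 ≤ δ / 2) (hb : δ2 ≤ 1 / 4)
    (hy : y ≤ 1 / 2) : (1 + 2 * δ2) * ((1 + δ / 12) * y + δ / 4) ≤ y + 3 * δ := by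
  have e1 : δ * y ≤ δ * (1 / 2) := mul_le_mul_of_nonneg_left hy h.le
  have e2 : δ2 * y ≤ δ2 * (1 / 2) := mul_le_mul_of_nonneg_left hy h0.le
  have e3 : δ2 * δ ≤ 1 / 4 * δ := mul_le_mul_of_nonneg_right hb h.le
  have e4 : δ2 * δ * y ≤ δ2 * δ * (1 / 2) := mul_le_mul_of_nonneg_left hy (by positivity)
  have e5 : (1 + 2 * δ2) * ((1 + δ / 12) * y + δ / 4) =
      y + δ * y / 12 + δ / 4 + 2 * (δ2 * y) + δ2 * δ * y / 6 + δ2 * δ / 2 := by ring
  rw [e5]
  linarith

lemma mom_ge (hl : Pm l) (hv : Wt v) {A : ℕ} (hA : 1 ≤ A) (hp : ∀ n, v (n + A) = v n)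
    (ha : 0 < den v A) {E : Set ℕ} (hE : Exc l v E) (m : ℕ) (hm : 1 ≤ m) (hAm : A ∣ m)
    (i : ℕ) (ε : ℝ) (hε : 0 < ε) :
    ∃ C : ℕ, ∀ H N : ℕ, C ≤ H → C * H ≤ N → N ∉ E →
      ∑ x ∈ Icc 1 N, ((1 + TT l v m H x) / 2) ^ (i + 2) ≤ (4 / (3 * (i + 3)) + ε) * N := by
  have hvm : ∀ n, v (n + m) = v n := fun n => per_dvd hp hAm n
  set a := den v A with had
  set c : ℝ := ε / (i + 2) with hc
  have hc0 : 0 < c := by positivity
  obtain ⟨K, hK⟩ := exists_nat_ge (3 / c + 3)
  have hK3 : (3 : ℝ) ≤ K := by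
    have : 0 < 3 / c := by positivity
    linarith
  have hK2 : 2 ≤ K := by
    have : (3 : ℕ) ≤ K := by exact_mod_cast hK3
    omega
  have hkap : 1 / c < kap (K + 1) := by
    unfold kap
    push_cast
    have h1 : 1 / ((K : ℝ) + 1) ≤ 1 := by rw [div_le_one (by positivity)]; linarith
    have h2 : 3 / c = 3 * (1 / c) := by ring
    have h3 : 0 < 1 / c := by positivity
    nlinarith
  set δ : ℝ := c / 6 with hδ
  have hδ0 : 0 < δ := by positivity
  set δ2 : ℝ := min (δ / 2) (1 / 4) with hδ2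
  have hδ20 : 0 < δ2 := lt_min (by positivity) (by norm_num)
  have hδ2a : δ2 ≤ δ / 2 := min_le_left _ _
  have hδ2b : δ2 ≤ 1 / 4 := min_le_right _ _
  set δ' : ℝ := δ * a / 12 with hδ'
  have hδ'0 : 0 < δ' := by positivity
  choose! C1 hC1 using fun d (hd : 1 ≤ d) => exc_win hl hv hE (d * m) (Nat.mul_pos hd hm) δ' hδ'0
  obtain ⟨C2, hC2⟩ := exists_nat_ge (6 * ((K : ℝ) + 1) ^ 2 * m / (δ' * a))
  set δ3 : ℝ := min δ2 δ' with hδ3
  have hδ30 : 0 < δ3 := lt_min hδ20 hδ'0
  obtain ⟨C3, hC3⟩ := W_close hv hA hp ha δ3 hδ30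
  have ha1 : a ≤ 1 := den_le_one hv A
  refine ⟨∑ d ∈ range (K + 2), C1 d + C2 + C3 + 1, fun H N hH hN hNE => ?_⟩
  have hH0 : (0 : ℝ) < H := by exact_mod_cast (by omega : 0 < H)
  have hN0' : (0 : ℝ) ≤ N := Nat.cast_nonneg N
  have hV0 : 0 < a * H := by positivity
  have hC1' : ∀ d, 1 ≤ d → d ≤ K + 1 → |∑ x ∈ Icc 1 N, W (pv l v (d * m)) H x| ≤ δ' * H * N := by
    intro d hd hdK
    have h1 : C1 d ≤ ∑ d ∈ range (K + 2), C1 d :=
      single_le_sum (f := C1) (fun _ _ => Nat.zero_le _) (mem_range.2 (by omega))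
    exact hC1 d hd H N (by omega) (le_trans (Nat.mul_le_mul_right H (by omega)) hN) hNE
  have hC2' : 6 * ((K : ℝ) + 1) ^ 2 * m ≤ δ' * a * H := by
    rw [div_le_iff₀ (by positivity)] at hC2
    refine hC2.trans ?_
    rw [mul_comm]
    apply mul_le_mul_of_nonneg_left _ (by positivity)
    exact_mod_cast (by omega : C2 ≤ H)
  have hm0 : (0 : ℝ) ≤ m := Nat.cast_nonneg m
  have hlow : ∀ x, (1 - δ2) * (a * H) ≤ W v H x := by
    intro x
    refine le_trans ?_ (hC3 H x (by omega)).1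
    apply mul_le_mul_of_nonneg_right _ hV0.le
    have := min_le_left δ2 δ'
    linarith
  have hup : ∀ x, W v H x ≤ (a + δ') * H := by
    intro x
    refine (hC3 H x (by omega)).2.trans ?_
    have h1 : δ3 * (a * H) ≤ δ' * H := by
      have h2 : δ3 * (a * H) ≤ δ' * (1 * H) :=
        mul_le_mul (min_le_right _ _) (mul_le_mul_of_nonneg_right ha1 hH0.le) hV0.le hδ'0.le
      linarith
    linarith
  have hpos : ∀ x, 0 < W v H x := by
    intro x
    refine lt_of_lt_of_le ?_ (hlow x)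
    apply mul_pos _ hV0
    linarith
  set t : ℕ → ℝ := fun x => (1 - TT l v m H x) / 2 with ht
  have htq : ∀ x, W (qv l v m) H x = 2 * W v H x * t x := by
    intro x
    rw [W_qv]
    simp only [ht, TT]
    have := (hpos x).ne'
    field_simp
  have ht01 : ∀ x ∈ Icc 1 N, 0 ≤ t x ∧ t x ≤ 1 := by
    intro x _
    have h1 := abs_le.1 (TT_abs hl hv m H x (hpos x))
    simp only [ht]
    constructor <;> linarith
  have hNc : ((Icc 1 N).card : ℝ) = N := by simp
  have hav := hinge_avg (Icc 1 N) t (fun J x => W (av l v J m) H x / (J ^ 2 * W v H x)) K (3 * δ) N hNc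
    (fun J x => div_nonneg (by
      unfold W av
      exact sum_nonneg fun _ _ => mul_nonneg (hv.nonneg _) (sq_nonneg _))
      (mul_nonneg (by positivity) (hpos x).le)) (by positivity)
    (by
      intro J hJ hJK x _
      have hJ0 : (0 : ℝ) < J := by exact_mod_cast (by omega : 0 < J)
      have hJK' : (J : ℝ) ≤ K + 1 := by exact_mod_cast hJK
      have hw := hpos x
      have h1 := av_lower hl hv hvm J H x
      rw [htq] at h1
      unfold kap
      have h3 : 1 - W (av l v J m) H x / (J ^ 2 * W v H x) =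
          (J ^ 2 * W v H x - W (av l v J m) H x) / (J ^ 2 * W v H x) := by
        field_simp
      have h4 : (J ^ 2 * W v H x - W (av l v J m) H x) / (J ^ 2 * W v H x) ≤
          (((J : ℝ) ^ 3 - J) / 3 * (2 * W v H x * t x + 8 * (J * m))) / (J ^ 2 * W v H x) :=
        div_le_div_of_nonneg_right h1 (by positivity)
      have h5 : (((J : ℝ) ^ 3 - J) / 3 * (2 * W v H x * t x + 8 * (J * m))) / (J ^ 2 * W v H x) =
          2 / 3 * ((J : ℝ) - 1 / J) * t x + (((J : ℝ) ^ 2 - 1) / 3 * (8 * m)) / W v H x := by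
        field_simp
      have h6 : (((J : ℝ) ^ 2 - 1) / 3 * (8 * m)) / W v H x ≤ 3 * δ := by
        rw [div_le_iff₀ hw]
        have h7 : ((J : ℝ)) ^ 2 ≤ (K + 1) ^ 2 := pow_le_pow_left₀ hJ0.le hJK' 2
        have h8 := ar1 (J : ℝ) K m h7 hm0
        have h9 := ar2 a δ δ2 (H : ℝ) (W v H x) hδ0 hδ2b hV0 ha1 (hlow x)
        rw [← hδ'] at h9
        exact (h8.trans hC2').trans h9
      have h9 := (h3.le.trans h4).trans h5.le
      linarith only [h9, h6])
    (by
      intro J hJ hJK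
      have hJ0 : (0 : ℝ) < J := by exact_mod_cast (by omega : 0 < J)
      have hJ2 : (2 : ℝ) ≤ J := by exact_mod_cast hJ
      have hJK' : (J : ℝ) ≤ K + 1 := by exact_mod_cast hJK
      have h1 := av_upper hl hv hvm J H N a δ' hδ'0.le (by
        have h2 : δ' * a * H ≤ δ' * H := by
          have : δ' * a * H ≤ δ' * 1 * H :=
            mul_le_mul_of_nonneg_right (mul_le_mul_of_nonneg_left ha1 hδ'0.le) hH0.le
          linarith
        refine le_trans ?_ (hC2'.trans h2)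
        push_cast
        apply mul_le_mul_of_nonneg_right _ hm0
        nlinarith) hup (fun d hd hdJ => hC1' d hd (by omega))
      have h2 : ∀ x ∈ Icc 1 N, W (av l v J m) H x / (J ^ 2 * W v H x) ≤
          (1 + 2 * δ2) / (J ^ 2 * (a * H)) * W (av l v J m) H x := by
        intro x _
        have hw := hpos x
        have h3 : 0 ≤ W (av l v J m) H x := by
          unfold W av
          exact sum_nonneg fun _ _ => mul_nonneg (hv.nonneg _) (sq_nonneg _)
        exact ar3 (J : ℝ) δ2 (a * H) (W v H x) _ hJ0 hδ20 hδ2b hV0 hw (hlow x) h3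
      refine (sum_le_sum h2).trans ?_
      rw [← mul_sum]
      have h3 := mul_le_mul_of_nonneg_left h1 (by positivity : 0 ≤ (1 + 2 * δ2) / ((J : ℝ) ^ 2 * (a * H)))
      refine h3.trans ?_
      have h4 : (1 + 2 * δ2) / ((J : ℝ) ^ 2 * (a * H)) * ((J * (a + δ') + 3 * δ' * J ^ 2) * H * N) =
          (1 + 2 * δ2) * ((1 + δ / 12) * (1 / J) + δ / 4) * N := by
        rw [hδ']
        field_simp
        ring
      rw [h4]
      apply mul_le_mul_of_nonneg_right _ hN0'
      have h5 : 1 / (J : ℝ) ≤ 1 / 2 := one_div_le_one_div_of_le (by norm_num) hJ2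
      have h6 : 0 < 1 / (J : ℝ) := by positivity
      exact ar4 δ δ2 _ hδ0 hδ20 hδ2a hδ2b h5)
  have h1 : ∑ x ∈ Icc 1 N, ((1 + TT l v m H x) / 2) ^ (i + 2) = ∑ x ∈ Icc 1 N, (1 - t x) ^ (i + 2) := by
    apply sum_congr rfl
    intro x _
    simp only [ht]
    congr 1
    ring
  rw [h1]
  have h2 := moments (Icc 1 N) t ht01 c i (by
    intro s hs0 hs1
    rw [hNc]
    rcases le_or_gt s c with hsc | hsc
    · have h3 : ∀ x ∈ Icc 1 N, max 0 (s - t x) ≤ c := by
        intro x hx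
        apply max_le hc0.le
        have := (ht01 x hx).1
        linarith
      refine (sum_le_sum h3).trans ?_
      rw [sum_const, nsmul_eq_mul, hNc]
      have : 0 ≤ 2 / 3 * s ^ 2 * N := by positivity
      nlinarith
    · have hs : 0 < s := lt_trans hc0 hsc
      have h3 : ∀ x ∈ Icc 1 N, max 0 (s - t x) = s * max 0 (1 - 1 / s * t x) := by
        intro x _
        rw [mul_max_of_nonneg _ _ hs.le, mul_zero]
        congr 1
        field_simp
      rw [sum_congr rfl h3, ← mul_sum]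
      have h4 := hav (1 / s) (by rw [le_div_iff₀ hs]; linarith) (lt_of_lt_of_le' hkap (by
        apply one_div_le_one_div_of_le hc0 hsc.le))
      refine (mul_le_mul_of_nonneg_left h4 hs.le).trans ?_
      have e : s * ((2 / (3 * (1 / s)) + 2 * (3 * δ)) * N) = (2 / 3 * s ^ 2 + c * s) * N := by
        rw [hδ]; field_simp; ring
      rw [e]
      apply mul_le_mul_of_nonneg_right _ hN0'
      nlinarith)
  rw [hNc] at h2
  refine h2.trans (le_of_eq ?_)
  rw [hc]
  field_simp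

/-- the recursion for the mean square -/
lemma chainv (hl : Pm l) (hv : Wt v) (H N : ℕ) (V δ : ℝ) (hV : 0 ≤ V) (hδ : 0 ≤ δ) (hδ1 : δ ≤ 1)
    (hw : ∀ x, W v H x ≤ (1 + δ) * V) : ∀ (S m : ℕ), (∀ n, v (n + m) = v n) →
    (∀ i ≤ S, |∑ x ∈ Icc 1 N, W (pv l v (2 ^ i * m)) H x| ≤ δ * V * N) → ((2 ^ S * m : ℕ) : ℝ) ≤ δ * V →
    ∑ x ∈ Icc 1 N, W (pv l v m) H x ^ 2 ≤ (1 / 3 + 2 / 3 * (1 / 4) ^ S + 10 * δ) * V ^ 2 * N := by
  intro S
  induction S with
  | zero =>
    intro m _ _ _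
    have h1 : ∀ x ∈ Icc 1 N, W (pv l v m) H x ^ 2 ≤ (1 + 10 * δ) * V ^ 2 := by
      intro x _
      have h2 := (W_pv_abs hl hv m H x).trans (hw x)
      rw [← sq_abs]
      refine (pow_le_pow_left₀ (abs_nonneg _) h2 2).trans ?_
      rw [mul_pow]
      apply mul_le_mul_of_nonneg_right _ (sq_nonneg V)
      nlinarith
    refine (sum_le_sum h1).trans (le_of_eq ?_)
    rw [sum_const, Nat.card_Icc, Nat.add_sub_cancel, nsmul_eq_mul]
    ring
  | succ S ih =>
    intro m hvm h1 h2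
    have hp : (2 : ℕ) ^ (S + 1) * m = 2 ^ S * (2 * m) := by ring
    have hvm2 : ∀ n, v (n + 2 * m) = v n := fun n => vmul hvm 2 n
    have h4 := ih (2 * m) hvm2 (fun i hi => by
      have := h1 (i + 1) (by omega)
      rwa [show 2 ^ (i + 1) * m = 2 ^ i * (2 * m) by ring] at this) (by rw [← hp]; exact h2)
    have h7 := h1 1 (by omega)
    rw [pow_one] at h7
    have h9 : (m : ℝ) ≤ δ * V := by
      refine le_trans ?_ h2
      have : m ≤ 2 ^ (S + 1) * m := Nat.le_mul_of_pos_left m (by positivity)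
      exact_mod_cast this
    have hN0 : (0 : ℝ) ≤ N := Nat.cast_nonneg N
    have h5 : ∀ x ∈ Icc 1 N, 4 * W (pv l v m) H x ^ 2 ≤
        V ^ 2 + 2 * V * W (pv l v (2 * m)) H x + W (pv l v (2 * m)) H x ^ 2 + 27 * δ * V ^ 2 := by
      intro x _
      have e1 := tentv hv (pp_pm hl m) m hvm H x
      have e2 : (fun n => v n * (l n * l (n + m) * (l (n + m) * l (n + m + m)))) = pv l v (2 * m) := by
        funext n
        unfold pv
        have := hl.sq (n + m)
        calc v n * (l n * l (n + m) * (l (n + m) * l (n + m + m))) =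
            v n * (l n * l (n + m + m) * (l (n + m) * l (n + m))) := by ring
          _ = v n * (l n * l (n + 2 * m)) := by rw [this, mul_one]; congr 3; omega
      rw [e2] at e1
      have e3 : |W (fun n => v n * (l n * l (n + m))) H x| = |W (pv l v m) H x| := rfl
      rw [e3] at e1
      have hr := (W_pv_abs hl hv (2 * m) H x).trans (hw x)
      have hr0 := W_pv_abs hl hv (2 * m) H x
      set r := W (pv l v (2 * m)) H x with hrd
      have hr' := abs_le.1 hr
      have e4 : 2 * |W (pv l v m) H x| ≤ V + r + 3 * δ * V := by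
        have := hw x
        linarith
      have e5 : 4 * W (pv l v m) H x ^ 2 = (2 * |W (pv l v m) H x|) ^ 2 := by
        rw [mul_pow, sq_abs]; norm_num
      have e6 := pow_le_pow_left₀ (by positivity) e4 2
      rw [e5]
      refine e6.trans ?_
      have e7 : r ≤ 2 * V := by nlinarith
      have e8 : 0 ≤ δ * V := mul_nonneg hδ hV
      have e9 : δ * V * r ≤ δ * V * (2 * V) := mul_le_mul_of_nonneg_left e7 e8
      have e10 : δ * V * (δ * V) ≤ δ * V * V := mul_le_mul_of_nonneg_left (by nlinarith) e8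
      nlinarith
    have h6 := sum_le_sum h5
    rw [← mul_sum] at h6
    have h8 : ∑ x ∈ Icc 1 N, (V ^ 2 + 2 * V * W (pv l v (2 * m)) H x + W (pv l v (2 * m)) H x ^ 2 + 27 * δ * V ^ 2) =
        N * V ^ 2 + 2 * V * ∑ x ∈ Icc 1 N, W (pv l v (2 * m)) H x +
          ∑ x ∈ Icc 1 N, W (pv l v (2 * m)) H x ^ 2 + N * (27 * δ * V ^ 2) := by
      simp only [sum_add_distrib, mul_sum, sum_const, Nat.card_Icc, nsmul_eq_mul, Nat.add_sub_cancel]
    rw [h8] at h6
    have h10 : 2 * V * ∑ x ∈ Icc 1 N, W (pv l v (2 * m)) H x ≤ 2 * V * (δ * V * N) :=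
      mul_le_mul_of_nonneg_left (abs_le.1 h7).2 (by positivity)
    have h11 : 0 ≤ δ * V ^ 2 * N := by positivity
    rw [pow_succ]
    nlinarith

/-- **all the moments** -/
theorem allmomv (hl : Pm l) (hv : Wt v) {A : ℕ} (hA : 1 ≤ A) (hp : ∀ n, v (n + A) = v n)
    (ha : 0 < den v A) {E : Set ℕ} (hE : Exc l v E) (m : ℕ) (hm : 1 ≤ m) (hAm : A ∣ m)
    (j : ℕ) (ε : ℝ) (hε : 0 < ε) :
    ∃ C : ℕ, ∀ H N : ℕ, C ≤ H → C * H ≤ N → N ∉ E →
      ∑ x ∈ Icc 1 N, ((1 + TT l v m H x) / 2) ^ j ≤ (cst j + ε) * N := by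
  rcases Nat.lt_or_ge 2 j with hj | hj
  · obtain ⟨i, rfl⟩ := Nat.exists_eq_add_of_le (show 2 ≤ j by omega)
    obtain ⟨C, hC⟩ := mom_ge hl hv hA hp ha hE m hm hAm i ε hε
    refine ⟨C, fun H N hH hN hNE => ?_⟩
    have h1 := hC H N hH hN hNE
    rw [add_comm 2 i]
    unfold cst
    rw [if_neg (by omega)]
    push_cast
    have : ((i : ℝ) + 2 + 1) = i + 3 := by ring
    rw [this]
    exact h1
  · set a := den v A with had
    obtain ⟨S, hS⟩ := exists_pow_lt_of_lt_one (show 0 < ε / 2 by positivity) (show (1 / 4 : ℝ) < 1 by norm_num)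
    set δ : ℝ := min (1 / 2) (ε / 40) with hδ
    have hδ0 : 0 < δ := lt_min (by norm_num) (by positivity)
    have hδh : δ ≤ 1 / 2 := min_le_left _ _
    have hδε : δ ≤ ε / 40 := min_le_right _ _
    choose! C1 hC1 using fun d (hd : 1 ≤ d) => exc_win hl hv hE d hd (δ * a) (by positivity)
    obtain ⟨C2, hC2⟩ := exists_nat_ge (((2 ^ S * m : ℕ) : ℝ) / (δ * a))
    obtain ⟨C3, hC3⟩ := W_close hv hA hp ha δ hδ0
    refine ⟨∑ i ∈ range (S + 1), C1 (2 ^ i * m) + C2 + C3 + 1, fun H N hH hN hNE => ?_⟩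
    have hH0 : (0 : ℝ) < H := by exact_mod_cast (by omega : 0 < H)
    have hN0 : (0 : ℝ) ≤ N := Nat.cast_nonneg N
    set V : ℝ := a * H with hV
    have hV0 : 0 < V := by positivity
    have hC1' : ∀ i ≤ S, |∑ x ∈ Icc 1 N, W (pv l v (2 ^ i * m)) H x| ≤ δ * V * N := by
      intro i hi
      have h1 : C1 (2 ^ i * m) ≤ ∑ i ∈ range (S + 1), C1 (2 ^ i * m) :=
        single_le_sum (f := fun i => C1 (2 ^ i * m)) (fun _ _ => Nat.zero_le _) (mem_range.2 (by omega))
      have h2 := hC1 (2 ^ i * m) (Nat.mul_pos (by positivity) hm) H N (by omega)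
        (le_trans (Nat.mul_le_mul_right H (by omega)) hN) hNE
      refine h2.trans (le_of_eq ?_)
      rw [hV]; ring
    have hC2' : ((2 ^ S * m : ℕ) : ℝ) ≤ δ * V := by
      rw [div_le_iff₀ (by positivity)] at hC2
      refine hC2.trans ?_
      rw [hV]
      have h1 : (C2 : ℝ) * (δ * a) ≤ H * (δ * a) :=
        mul_le_mul_of_nonneg_right (by exact_mod_cast (by omega : C2 ≤ H)) (by positivity)
      linarith
    have hw : ∀ x, W v H x ≤ (1 + δ) * V := fun x => (hC3 H x (by omega)).2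
    have hlow : ∀ x, (1 - δ) * V ≤ W v H x := fun x => (hC3 H x (by omega)).1
    have hpos : ∀ x, 0 < W v H x := fun x => lt_of_lt_of_le (by nlinarith) (hlow x)
    have h2 := chainv hl hv H N V δ hV0.le hδ0.le (by linarith) hw S m
      (fun n => per_dvd hp hAm n) hC1' hC2'
    have h1 := hC1' 0 (by omega)
    rw [pow_zero, one_mul] at h1
    -- comparison of the two normalisations
    have hcmp : ∀ x, |TT l v m H x - W (pv l v m) H x / V| ≤ δ := by
      intro x
      have hx := hpos x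
      have e1 : TT l v m H x - W (pv l v m) H x / V = TT l v m H x * ((V - W v H x) / V) := by
        unfold TT
        field_simp
      rw [e1, abs_mul, abs_div, abs_of_pos hV0]
      have e2 : |V - W v H x| ≤ δ * V := by
        have := hw x
        have := hlow x
        rw [abs_le]
        constructor <;> linarith
      have e3 : |V - W v H x| / V ≤ δ := by rw [div_le_iff₀ hV0]; exact e2
      have e4 := TT_abs hl hv m H x hx
      calc |TT l v m H x| * (|V - W v H x| / V) ≤ 1 * δ :=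
            mul_le_mul e4 e3 (by positivity) (by norm_num)
        _ = δ := one_mul _
    have hT1 : ∑ x ∈ Icc 1 N, TT l v m H x ≤ 2 * δ * N := by
      have e1 : ∀ x ∈ Icc 1 N, TT l v m H x ≤ W (pv l v m) H x / V + δ := by
        intro x _
        have := (abs_le.1 (hcmp x)).2
        linarith
      refine (sum_le_sum e1).trans ?_
      rw [sum_add_distrib, ← sum_div, sum_const, Nat.card_Icc, Nat.add_sub_cancel, nsmul_eq_mul]
      have e2 : (∑ x ∈ Icc 1 N, W (pv l v m) H x) / V ≤ δ * N := by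
        rw [div_le_iff₀ hV0]
        have := (abs_le.1 h1).2
        linarith
      linarith
    have hT2 : ∑ x ∈ Icc 1 N, TT l v m H x ^ 2 ≤ (1 / 3 + ε / 2) * N + 14 * δ * N := by
      have e1 : ∀ x ∈ Icc 1 N, TT l v m H x ^ 2 ≤ (W (pv l v m) H x / V) ^ 2 + 4 * δ := by
        intro x _
        have e2 := abs_le.1 (hcmp x)
        have e3 := abs_le.1 (TT_abs hl hv m H x (hpos x))
        set u := W (pv l v m) H x / V
        set T := TT l v m H x
        have e4 : T ^ 2 - u ^ 2 = (T - u) * (T + u) := by ring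
        have e5 : |T + u| ≤ 5 / 2 := by
          rw [abs_le]
          constructor <;> linarith
        have e6 : (T - u) * (T + u) ≤ δ * (5 / 2) := by
          refine (le_abs_self _).trans ?_
          rw [abs_mul]
          exact mul_le_mul (hcmp x) e5 (abs_nonneg _) hδ0.le
        linarith
      refine (sum_le_sum e1).trans ?_
      rw [sum_add_distrib, sum_const, Nat.card_Icc, Nat.add_sub_cancel, nsmul_eq_mul]
      have e2 : ∑ x ∈ Icc 1 N, (W (pv l v m) H x / V) ^ 2 ≤ (1 / 3 + 2 / 3 * (1 / 4) ^ S + 10 * δ) * N := by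
        have e9 : ∑ x ∈ Icc 1 N, (W (pv l v m) H x / V) ^ 2 = (∑ x ∈ Icc 1 N, W (pv l v m) H x ^ 2) / V ^ 2 := by
          rw [sum_div]
          exact sum_congr rfl fun x _ => div_pow _ _ _
        rw [e9, div_le_iff₀ (by positivity)]
        refine h2.trans (le_of_eq ?_)
        ring
      have e3 : (2 / 3 : ℝ) * (1 / 4) ^ S ≤ ε / 2 := by
        have : (0 : ℝ) ≤ (1 / 4) ^ S := by positivity
        linarith
      nlinarith
    unfold cst
    rw [if_pos hj]
    interval_cases j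
    · simp
      nlinarith
    · have h4 : ∑ x ∈ Icc 1 N, ((1 + TT l v m H x) / 2) ^ 1 = (N + ∑ x ∈ Icc 1 N, TT l v m H x) / 2 := by
        simp only [pow_one]
        rw [← sum_div, sum_add_distrib]
        simp
      rw [h4]
      push_cast
      nlinarith
    · have h4 : ∑ x ∈ Icc 1 N, ((1 + TT l v m H x) / 2) ^ 2 =
          (N + 2 * ∑ x ∈ Icc 1 N, TT l v m H x + ∑ x ∈ Icc 1 N, TT l v m H x ^ 2) / 4 := by
        have : ∀ x ∈ Icc 1 N, ((1 + TT l v m H x) / 2) ^ 2 = (1 + 2 * TT l v m H x + TT l v m H x ^ 2) / 4 := by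
          intro x _; ring
        rw [sum_congr rfl this, ← sum_div, sum_add_distrib, sum_add_distrib, ← mul_sum]
        simp
      rw [h4]
      push_cast
      nlinarith

lemma pow_add_le (a u B : ℝ) (ha0 : 0 ≤ a) (hu : 0 ≤ u) (hB : a + u ≤ B) (j : ℕ) :
    (a + u) ^ j ≤ a ^ j + j * B ^ (j - 1) * u := by
  have hB0 : 0 ≤ B := by linarith
  induction j with
  | zero => simp
  | succ j ih =>
    rcases Nat.eq_zero_or_pos j with h | h
    · subst h
      simp
    · have h1 : (a + u) ^ (j + 1) = (a + u) * (a + u) ^ j := by ring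
      have h2 : (a + u) * (a + u) ^ j ≤ a * (a + u) ^ j + u * B ^ j := by
        have h3 : (a + u) ^ j ≤ B ^ j := pow_le_pow_left₀ (by linarith) hB j
        have := mul_le_mul_of_nonneg_left h3 hu
        linarith
      have h4 : a * (a + u) ^ j ≤ a * (a ^ j + j * B ^ (j - 1) * u) := mul_le_mul_of_nonneg_left ih ha0
      have h5 : a * (j * B ^ (j - 1) * u) ≤ j * B ^ j * u := by
        have h6 : B ^ j = B * B ^ (j - 1) := by rw [← pow_succ']; congr 1; omega
        rw [h6]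
        have h7 : 0 ≤ (j : ℝ) * B ^ (j - 1) * u := by positivity
        have := mul_le_mul_of_nonneg_right (show a ≤ B by linarith) h7
        linarith
      rw [h1, Nat.add_sub_cancel]
      push_cast
      have e : a ^ (j + 1) = a * a ^ j := by ring
      rw [e]
      linarith

/-- the moments of the window sums of a sign sequence on a periodic set, if the product of two values at
the distance `d` is a product `l(n) l(n + m)` -/
theorem momg (hl : Pm l) (hv : Wt v) {A : ℕ} (hA : 1 ≤ A) (hp : ∀ n, v (n + A) = v n)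
    (ha : 0 < den v A) {E : Set ℕ} (hE : Exc l v E) (m : ℕ) (hm : 1 ≤ m) (hAm : A ∣ m)
    (g : ℕ → ℝ) (hg : Pm g) (d : ℕ) (hAd : A ∣ d) (hgd : ∀ n, g n * g (n + d) = l n * l (n + m))
    (j : ℕ) (ε : ℝ) (hε : 0 < ε) :
    ∃ C : ℕ, ∀ H N : ℕ, C ≤ H → C * H ≤ N → N ∉ E →
      ∑ x ∈ Icc 1 N, |W (fun n => v n * g n) H x| ^ j ≤ (cst j + ε) * (den v A * H) ^ j * N := by
  set a := den v A with had
  set B : ℝ := j * 3 ^ (j - 1) + 1 with hB
  have hB0 : 0 < B := by positivity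
  set δ : ℝ := min (1 / 2) (ε / (4 * B)) with hδ
  have hδ0 : 0 < δ := lt_min (by norm_num) (by positivity)
  have hδh : δ ≤ 1 / 2 := min_le_left _ _
  have hδε : δ ≤ ε / (4 * B) := min_le_right _ _
  obtain ⟨C1, hC1⟩ := allmomv hl hv hA hp ha hE m hm hAm j (ε / 2) (by positivity)
  obtain ⟨C3, hC3⟩ := W_close hv hA hp ha δ hδ0
  obtain ⟨C2, hC2⟩ := exists_nat_ge ((d : ℝ) / (δ * a))
  refine ⟨C1 + C2 + C3 + 1, fun H N hH hN hNE => ?_⟩
  have h1 := hC1 H N (by omega) (le_trans (Nat.mul_le_mul_right H (by omega)) hN) hNE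
  have hH0 : (0 : ℝ) < H := by exact_mod_cast (by omega : 0 < H)
  have hN0 : (0 : ℝ) ≤ N := Nat.cast_nonneg N
  set V : ℝ := a * H with hV
  have hV0 : 0 < V := by positivity
  have hd : (d : ℝ) ≤ δ * V := by
    rw [div_le_iff₀ (by positivity)] at hC2
    refine hC2.trans ?_
    rw [hV]
    have h1 : (C2 : ℝ) * (δ * a) ≤ H * (δ * a) :=
      mul_le_mul_of_nonneg_right (by exact_mod_cast (by omega : C2 ≤ H)) (by positivity)
    linarith
  have hloc : ∀ x ∈ Icc 1 N, |W (fun n => v n * g n) H x| ^ j ≤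
      V ^ j * (((1 + TT l v m H x) / 2) ^ j + B * (2 * δ)) := by
    intro x _
    have hw := (hC3 H x (by omega)).2
    have hlow := (hC3 H x (by omega)).1
    have hpos : 0 < W v H x := lt_of_lt_of_le (by nlinarith) hlow
    have e1 := tentv hv hg d (fun n => per_dvd hp hAd n) H x
    have e2 : (fun n => v n * (g n * g (n + d))) = pv l v m := by
      funext n
      rw [hgd]
      rfl
    rw [e2] at e1
    have e3 : W (pv l v m) H x = W v H x * TT l v m H x := by
      unfold TT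
      field_simp
    rw [e3] at e1
    have e4 := abs_le.1 (TT_abs hl hv m H x hpos)
    set T := TT l v m H x
    set y : ℝ := (1 + T) / 2 with hy
    have hy0 : 0 ≤ y := by rw [hy]; linarith
    have hy1 : y ≤ 1 := by rw [hy]; linarith
    have e5 : |W (fun n => v n * g n) H x| ≤ V * (y + 2 * δ) := by
      have e6 : W v H x * y ≤ V * y + δ * V := by
        have : W v H x * y ≤ (1 + δ) * V * y := mul_le_mul_of_nonneg_right hw hy0
        have h2 : δ * V * y ≤ δ * V * 1 := mul_le_mul_of_nonneg_left hy1 (by positivity)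
        linarith
      have e7 : 2 * (W v H x * y) = W v H x + W v H x * T := by rw [hy]; ring
      linarith
    have e8 := pow_le_pow_left₀ (abs_nonneg _) e5 j
    rw [mul_pow] at e8
    refine e8.trans ?_
    apply mul_le_mul_of_nonneg_left _ (by positivity)
    have e9 := pow_add_le y (2 * δ) 3 hy0 (by positivity) (by linarith) j
    refine e9.trans ?_
    have : (j : ℝ) * 3 ^ (j - 1) * (2 * δ) ≤ B * (2 * δ) := by
      apply mul_le_mul_of_nonneg_right _ (by positivity)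
      rw [hB]; linarith
    linarith
  refine (sum_le_sum hloc).trans ?_
  rw [← mul_sum, sum_add_distrib, sum_const, Nat.card_Icc, Nat.add_sub_cancel, nsmul_eq_mul]
  have h2 : B * (2 * δ) ≤ ε / 2 := by
    have : B * (2 * δ) ≤ B * (2 * (ε / (4 * B))) :=
      mul_le_mul_of_nonneg_left (mul_le_mul_of_nonneg_left hδε (by norm_num)) hB0.le
    refine this.trans (le_of_eq ?_)
    field_simp
    norm_num
  have h3 := mul_le_mul_of_nonneg_left h2 hN0
  have h4 : ∑ x ∈ Icc 1 N, ((1 + TT l v m H x) / 2) ^ j + N * (B * (2 * δ)) ≤ (cst j + ε) * N := by linarith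
  refine (mul_le_mul_of_nonneg_left h4 (by positivity)).trans (le_of_eq ?_)
  ring

end Pool.Agent.R318.MU
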