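import Pool.Agent.R509.TT.Two
import Pool.Agent.R318.MU.Mom2

/-!
Library R318.MU (helper318): one exceptional set for the two point theorem with all the shifts and all the
periodic weights.
-/

set_option autoImplicit false

namespace Pool.Agent.R318.MU

open Finset
open Pool.Agent.H376R2.MR (lam)
open Pool.Agent.TH823.MRS (ExpoSmall expo_lam lam_bdd lam_flip)
open Pool.Agent.Y958.U (LZ s_avc diag' lam_real)
open Pool.Agent.Y958.TC (two Av)
open Pool.Agent.R509.TT (l l_pm Pm)

/-- the property of the exceptional set -/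
def AllExc (E : Set ℕ) : Prop := ∀ h : ℕ, 1 ≤ h → ∀ A : ℕ, 1 ≤ A → ∀ v : ℕ → ℝ, (∀ n, |v n| ≤ 1) →
    (∀ n, v (n + A) = v n) → ∀ δ : ℝ, 0 < δ →
    ∃ N₀ : ℕ, ∀ N : ℕ, N₀ ≤ N → N ∉ E → |∑ n ∈ range N, v n * (l n * l (n + h))| ≤ δ * N

theorem all_exc : ∃ E : Set ℕ, LZ E ∧ AllExc E := by
  have hE : ExpoSmall (fun n => (lam n : ℂ)) := fun ε hε A hA => expo_lam ε hε A hA
  have h1 : ∀ p : ℕ × ℕ × ℕ × ℕ, LZ {N | 1 / ((p.2.2.2 : ℝ) + 1) <
      |Av N (fun n => (fun n => if n % (p.2.1 + 1) = p.2.2.1 then (1 : ℝ) else 0) n * lam n *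
        lam (n + (p.1 + 1)))|} := by
    intro p
    exact two s_avc lam lam_bdd lam_flip hE (p.1 + 1) (by omega) (p.2.1 + 1) (by omega)
      (fun n => if n % (p.2.1 + 1) = p.2.2.1 then (1 : ℝ) else 0)
      (by intro n; split_ifs <;> simp) (by intro n; simp only [Nat.add_mod_right]) _ (by positivity)
  obtain ⟨E, hE1, hE2⟩ := diag' _ h1
  refine ⟨E, hE1, fun h hh A hA v hv hp δ hδ => ?_⟩
  have hA0 : (0 : ℝ) < A := by exact_mod_cast hA
  obtain ⟨j, hj⟩ := exists_nat_one_div_lt (show (0 : ℝ) < δ / A by positivity)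
  choose N₀ hN₀ using fun c : ℕ => hE2 (h - 1, A - 1, c, j)
  refine ⟨∑ c ∈ range A, N₀ c + 1, fun N hN hNE => ?_⟩
  have hN0 : (0 : ℝ) < N := by exact_mod_cast (by omega : 0 < N)
  have key : ∀ c ∈ range A, |∑ n ∈ range N, (if n % A = c then (1 : ℝ) else 0) * (l n * l (n + h))| ≤
      δ / A * N := by
    intro c hc
    have hN' : N₀ c ≤ N := by
      have := single_le_sum (f := N₀) (fun _ _ => Nat.zero_le _) hc
      omega
    by_contra hcon
    apply hNE
    apply hN₀ c N _ hN'
    rw [Set.mem_ofPred_eq]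
    simp only
    have h2 : Av N (fun n => (if n % (A - 1 + 1) = c then (1 : ℝ) else 0) * lam n *
        lam (n + (h - 1 + 1))) = (∑ n ∈ range N, (if n % A = c then (1 : ℝ) else 0) * (l n * l (n + h))) / N := by
      unfold Av
      congr 1
      apply sum_congr rfl
      intro n _
      unfold l
      rw [← lam_real, ← lam_real, show h - 1 + 1 = h by omega, show A - 1 + 1 = A by omega]
      ring
    rw [h2, abs_div, abs_of_pos hN0, lt_div_iff₀ hN0]
    push Not at hcon
    refine lt_of_le_of_lt ?_ hcon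
    exact mul_le_mul_of_nonneg_right hj.le hN0.le
  have hdec : ∀ n, v n * (l n * l (n + h)) =
      ∑ c ∈ range A, v c * ((if n % A = c then (1 : ℝ) else 0) * (l n * l (n + h))) := by
    intro n
    rw [sum_eq_single (n % A)]
    · rw [if_pos rfl, one_mul]
      congr 1
      have := per_mul hp (n / A) (n % A)
      rw [← this]
      congr 1
      exact (Nat.mod_add_div' n A).symm
    · intro c _ hc
      rw [if_neg (Ne.symm hc)]
      ring
    · intro hn
      exact absurd (mem_range.2 (Nat.mod_lt n hA)) hn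
  rw [sum_congr rfl fun n _ => hdec n, sum_comm]
  refine (abs_sum_le_sum_abs _ _).trans ?_
  have h2 : ∀ c ∈ range A, |∑ n ∈ range N, v c * ((if n % A = c then (1 : ℝ) else 0) * (l n * l (n + h)))| ≤
      δ / A * N := by
    intro c hc
    rw [← mul_sum, abs_mul]
    calc |v c| * |∑ n ∈ range N, (if n % A = c then (1 : ℝ) else 0) * (l n * l (n + h))| ≤
          1 * (δ / A * N) := mul_le_mul (hv c) (key c hc) (abs_nonneg _) (by norm_num)
      _ = δ / A * N := one_mul _
  refine (sum_le_sum h2).trans (le_of_eq ?_)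
  rw [sum_const, card_range, nsmul_eq_mul]
  field_simp

/-- shifts -/
theorem exc_shift {E : Set ℕ} (hE : AllExc E) (b : ℕ) {A : ℕ} (hA : 1 ≤ A) (v : ℕ → ℝ) (hv : Wt v)
    (hp : ∀ n, v (n + A) = v n) : Exc (fun n => l (n + b)) v E := by
  intro h hh δ hδ
  set vt : ℕ → ℝ := fun n => v (n + (A - 1) * b) with hvt
  have hvt1 : ∀ n, |vt n| ≤ 1 := fun n => hv.abs _
  have hvt2 : ∀ n, vt (n + A) = vt n := by
    intro n
    simp only [hvt]
    rw [show n + A + (A - 1) * b = n + (A - 1) * b + A by ring, hp]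
  have hvt3 : ∀ n, vt (n + b) = v n := by
    intro n
    simp only [hvt]
    have h1 : n + b + (A - 1) * b = n + b * A := by
      obtain ⟨B, rfl⟩ := Nat.exists_eq_add_of_le' hA
      rw [Nat.add_sub_cancel]
      ring
    rw [h1]
    exact per_mul hp b n
  obtain ⟨N₀, hN₀⟩ := hE h hh A hA vt hvt1 hvt2 (δ / 2) (by positivity)
  obtain ⟨K, hK⟩ := exists_nat_ge (4 * (b : ℝ) / δ)
  refine ⟨N₀ + K, fun N hN hNE => ?_⟩
  have h1 := hN₀ N (by omega) hNE
  set F : ℕ → ℝ := fun n => vt n * (l n * l (n + h)) with hF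
  have hF1 : ∀ n, |F n| ≤ 1 := by
    intro n
    simp only [hF]
    rw [abs_mul, (l_pm.mul (l_pm.shift h)).abs n, mul_one]
    exact hvt1 n
  have h2 : ∀ n, pv (fun n => l (n + b)) v h n = F (n + b) := by
    intro n
    simp only [pv, hF]
    rw [hvt3, show n + b + h = n + h + b by ring]
  rw [sum_congr rfl fun n _ => h2 n]
  have h3 : ∑ n ∈ range (N + b), F n = ∑ n ∈ range N, F n + ∑ i ∈ range b, F (N + i) := sum_range_add _ _ _
  have h4 : ∑ n ∈ range (b + N), F n = ∑ n ∈ range b, F n + ∑ i ∈ range N, F (b + i) := sum_range_add _ _ _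
  rw [add_comm b N, h3] at h4
  have h5 : ∑ n ∈ range N, F (n + b) = ∑ n ∈ range N, F n + ∑ i ∈ range b, F (N + i) - ∑ n ∈ range b, F n := by
    have : ∑ n ∈ range N, F (n + b) = ∑ n ∈ range N, F (b + n) := sum_congr rfl fun n _ => by rw [add_comm]
    rw [this]
    linarith
  rw [h5]
  have h6 : |∑ i ∈ range b, F (N + i)| ≤ b := by
    refine (abs_sum_le_sum_abs _ _).trans ((sum_le_sum fun i _ => hF1 _).trans (le_of_eq ?_))
    simp
  have h7 : |∑ i ∈ range b, F i| ≤ b := by
    refine (abs_sum_le_sum_abs _ _).trans ((sum_le_sum fun i _ => hF1 _).trans (le_of_eq ?_))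
    simp
  have h8 : 4 * (b : ℝ) ≤ δ * N := by
    rw [div_le_iff₀ hδ] at hK
    refine hK.trans ?_
    rw [mul_comm]
    exact mul_le_mul_of_nonneg_left (by exact_mod_cast (by omega : K ≤ N)) hδ.le
  have h9 := abs_sub (∑ n ∈ range N, F n + ∑ i ∈ range b, F (N + i)) (∑ n ∈ range b, F n)
  have h10 := abs_add_le (∑ n ∈ range N, F n) (∑ i ∈ range b, F (N + i))
  linarith

/-- the product over a progression -/
noncomputable def gp (b d k n : ℕ) : ℝ := ∏ t ∈ range k, l (n + (b + t * d))

lemma gp_pm (b d k : ℕ) : Pm (gp b d k) := by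
  induction k with
  | zero =>
    intro n
    left
    simp [gp]
  | succ k ih =>
    intro n
    have h : gp b d (k + 1) n = gp b d k n * l (n + (b + k * d)) := prod_range_succ _ _
    rw [h]
    rcases ih n with h1 | h1 <;> rcases l_pm (n + (b + k * d)) with h2 | h2 <;> simp [h1, h2]

lemma gp_two (b d k n : ℕ) : gp b d k n * gp b d k (n + d) = l (n + b) * l (n + k * d + b) := by
  induction k with
  | zero =>
    simp only [gp, range_zero, prod_empty, zero_mul, add_zero]
    rw [l_pm.sq]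
    norm_num
  | succ k ih =>
    have h : ∀ n, gp b d (k + 1) n = gp b d k n * l (n + (b + k * d)) := fun n => prod_range_succ _ _
    rw [h, h]
    have e : n + d + (b + k * d) = n + (k + 1) * d + b := by ring
    have e2 : n + (b + k * d) = n + k * d + b := by ring
    rw [e, e2]
    have hs := l_pm.sq (n + k * d + b)
    calc gp b d k n * l (n + k * d + b) * (gp b d k (n + d) * l (n + (k + 1) * d + b)) =
        (gp b d k n * gp b d k (n + d)) * l (n + k * d + b) * l (n + (k + 1) * d + b) := by ring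
      _ = l (n + b) * (l (n + k * d + b) * l (n + k * d + b)) * l (n + (k + 1) * d + b) := by rw [ih]; ring
      _ = _ := by rw [hs, mul_one]

end Pool.Agent.R318.MU
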