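import Pool.Agent.R318.MU.Abs
import Pool.Agent.R318.MU.Exc
import Pool.Agent.Y958.U.Mob

/-!
Library R318.MU (helper318): the moments of the window sums of the products of values of the Moebius
function.
-/

set_option autoImplicit false

namespace Pool.Agent.R318.MU

open Finset
open Pool.Agent.R509.TT (W Pm l l_pm)
open Pool.Agent.Y958.U (LZ GG GG_le GG_two GG_abs moeb_sq VW AW VW_per AW_pos sqf dv V_congr)
open Pool.Agent.Y958.TC (ind)

open Classical in
/-- the indicator of the squarefree tuples -/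
noncomputable def ws {r : ℕ} (x : Fin r → ℕ) (n : ℕ) : ℝ := if ∀ i, Squarefree (n + x i) then 1 else 0

/-- the indicator of the periodic set -/
noncomputable def vs {r : ℕ} (x : Fin r → ℕ) (Z n : ℕ) : ℝ := ind (VW x Z) n

lemma ws_wt {r : ℕ} (x : Fin r → ℕ) : Wt (ws x) := by
  intro n
  unfold ws
  split_ifs
  · exact Or.inr rfl
  · exact Or.inl rfl

lemma vs_wt {r : ℕ} (x : Fin r → ℕ) (Z : ℕ) : Wt (vs x Z) := by
  intro n
  unfold vs ind
  split_ifs
  · exact Or.inr rfl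
  · exact Or.inl rfl

lemma vs_per {r : ℕ} (x : Fin r → ℕ) (Z n : ℕ) : vs x Z (n + AW Z) = vs x Z n := by
  unfold vs ind
  by_cases h : VW x Z n
  · rw [if_pos h, if_pos ((VW_per x Z n).2 h)]
  · rw [if_neg h, if_neg (fun h' => h ((VW_per x Z n).1 h'))]

lemma ws_le {r : ℕ} (x : Fin r → ℕ) (Z n : ℕ) : ws x n ≤ vs x Z n := by
  unfold ws
  split_ifs with h
  · have : VW x Z n := by
      intro i q hq _ hd
      rw [sq] at hd
      exact (Nat.squarefree_iff_prime_squarefree.1 (h i)) q hq hd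
    unfold vs ind
    rw [if_pos this]
  · exact (vs_wt x Z).nonneg n

lemma vs_den {r : ℕ} (x : Fin r → ℕ) (Z : ℕ) : den (vs x Z) (AW Z) = dv (VW x Z) (AW Z) := by
  classical
  unfold den dv vs ind
  congr 1
  rw [sum_boole]

lemma ws_sum {r : ℕ} (x : Fin r → ℕ) (N : ℕ) :
    ∑ n ∈ range N, ws x n = (((range N).filter (fun n => ∀ i, Squarefree (n + x i))).card : ℝ) := by
  classical
  unfold ws
  rw [sum_boole]

/-- the products as sign sequences on the squarefree tuples -/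
lemma setup {r : ℕ} (α : Fin r → ℤ) (ε : Fin r → ℕ) (hα : Function.Injective α)
    (hε : ∀ i, ε i = 1 ∨ ε i = 2) (β : ℤ) (d k : ℕ) (hd : 1 ≤ d) (hk : 1 ≤ k)
    (hap : ∀ a : ℤ, (∃ i, ε i = 1 ∧ α i = a) ↔ ∃ t : ℕ, t < k ∧ a = β + t * d) :
    ∃ (m0 b : ℕ) (x : Fin r → ℕ), (∀ i, (x i : ℤ) = α i + m0) ∧
      ∀ n, GG α ε (n + m0) = ws x n * gp b d k n := by
  classical
  set m0 : ℕ := ∑ i, (α i).natAbs with hm0
  have hm : ∀ i, -(m0 : ℤ) ≤ α i := by
    intro i
    have h1 : (α i).natAbs ≤ m0 :=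
      single_le_sum (f := fun i => (α i).natAbs) (fun _ _ => Nat.zero_le _) (mem_univ i)
    omega
  set x : Fin r → ℕ := fun i => (α i + m0).toNat with hx
  have hxZ : ∀ i, (x i : ℤ) = α i + m0 := by
    intro i
    simp only [hx]
    rw [Int.toNat_of_nonneg]
    have := hm i
    omega
  obtain ⟨i0, hi0, hi0'⟩ := (hap β).2 ⟨0, by omega, by simp⟩
  have hβ : -(m0 : ℤ) ≤ β := by rw [← hi0']; exact hm i0
  set b : ℕ := (β + m0).toNat with hb
  have hbZ : (b : ℤ) = β + m0 := by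
    rw [hb, Int.toNat_of_nonneg]
    omega
  have hxinj : Function.Injective x := by
    intro i j hij
    apply hα
    have h1 := hxZ i
    have h2 := hxZ j
    rw [hij] at h1
    omega
  have hto : ∀ n i, ((n + m0 : ℕ) + α i : ℤ).toNat = n + x i := by
    intro n i
    have h1 := hxZ i
    have h2 : ((n + m0 : ℕ) + α i : ℤ) = ((n + x i : ℕ) : ℤ) := by
      push_cast
      rw [h1]
      ring
    rw [h2, Int.toNat_natCast]
  have himg : (univ.filter (fun i => ε i = 1)).image x = (range k).image (fun t => b + t * d) := by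
    ext y
    simp only [mem_image, mem_filter, mem_univ, true_and, mem_range]
    constructor
    · rintro ⟨i, hi, rfl⟩
      obtain ⟨t, ht, hat⟩ := (hap (α i)).1 ⟨i, hi, rfl⟩
      refine ⟨t, ht, ?_⟩
      have h1 := hxZ i
      have : ((b + t * d : ℕ) : ℤ) = (x i : ℤ) := by
        push_cast
        rw [h1, hbZ, hat]
        ring
      exact_mod_cast this
    · rintro ⟨t, ht, rfl⟩
      obtain ⟨i, hi, hai⟩ := (hap (β + t * d)).2 ⟨t, ht, rfl⟩
      refine ⟨i, hi, ?_⟩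
      have h1 := hxZ i
      have : (x i : ℤ) = ((b + t * d : ℕ) : ℤ) := by
        push_cast
        rw [h1, hbZ, hai]
        ring
      exact_mod_cast this
  refine ⟨m0, b, x, hxZ, fun n => ?_⟩
  unfold GG ws
  by_cases h : ∀ i, Squarefree (n + x i)
  · rw [if_pos h, one_mul]
    have e1 : ∀ i, ((ArithmeticFunction.moebius ((n + m0 : ℕ) + α i : ℤ).toNat : ℤ) : ℝ) ^ ε i =
        if ε i = 1 then l (n + x i) else 1 := by
      intro i
      rw [hto]
      by_cases hi : ε i = 1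
      · rw [if_pos hi, hi, pow_one, ArithmeticFunction.moebius_apply_of_squarefree (h i)]
        unfold l
        push_cast
        rfl
      · rw [if_neg hi, (hε i).resolve_left hi, moeb_sq, if_pos (h i)]
    rw [prod_congr rfl fun i _ => e1 i, ← prod_filter]
    have e2 : ∏ i ∈ univ.filter (fun i => ε i = 1), l (n + x i) =
        ∏ y ∈ (univ.filter (fun i => ε i = 1)).image x, l (n + y) := by
      rw [prod_image]
      intro i _ j _ hij
      exact hxinj hij
    rw [e2, himg, prod_image]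
    · rfl
    · intro s _ t _ hst
      simp only at hst
      have : s * d = t * d := by omega
      exact Nat.eq_of_mul_eq_mul_right hd this
  · rw [if_neg h, zero_mul]
    push Not at h
    obtain ⟨i, hi⟩ := h
    apply prod_eq_zero (mem_univ i)
    rw [hto, ArithmeticFunction.moebius_eq_zero_of_not_squarefree hi, Int.cast_zero, zero_pow]
    rcases hε i with h | h <;> omega

/-- if the periodic set is empty, the products vanish -/
lemma empty {r : ℕ} (α : Fin r → ℤ) (ε : Fin r → ℕ) (hε : ∀ i, ε i = 1 ∨ ε i = 2) (m0 : ℕ)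
    (x : Fin r → ℕ) (hxZ : ∀ i, (x i : ℤ) = α i + m0) (Z : ℕ) (h0 : ¬ 0 < dv (VW x Z) (AW Z)) (n : ℕ) :
    GG α ε n = 0 := by
  classical
  have hno : ∀ n, ¬ VW x Z n := by
    intro n hn
    apply h0
    unfold dv
    have hA : (0 : ℝ) < AW Z := by exact_mod_cast AW_pos Z
    apply div_pos _ hA
    have : n % AW Z ∈ (range (AW Z)).filter (VW x Z) := by
      rw [mem_filter, mem_range]
      exact ⟨Nat.mod_lt _ (AW_pos Z), (V_congr (VW_per x Z) (Nat.mod_modEq n (AW Z))).2 hn⟩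
    exact_mod_cast card_pos.2 ⟨_, this⟩
  by_contra hne
  have hsq : ∀ i, Squarefree ((n : ℤ) + α i).toNat := by
    intro i
    by_contra hi
    apply hne
    unfold GG
    apply prod_eq_zero (mem_univ i)
    rw [ArithmeticFunction.moebius_eq_zero_of_not_squarefree hi, Int.cast_zero, zero_pow]
    rcases hε i with h | h <;> omega
  apply hno (n + (AW Z - 1) * m0)
  intro i q hq hqW hd
  have hpos : 0 < ((n : ℤ) + α i).toNat := Nat.pos_of_ne_zero (hsq i).ne_zero
  have h1 : (n + (AW Z - 1) * m0) + x i = ((n : ℤ) + α i).toNat + AW Z * m0 := by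
    have h2 := hxZ i
    have h3 : (((n : ℤ) + α i).toNat : ℤ) = n + α i := Int.toNat_of_nonneg (by omega)
    have h4 : (AW Z - 1) * m0 + m0 = AW Z * m0 := by
      have := AW_pos Z
      calc (AW Z - 1) * m0 + m0 = (AW Z - 1 + 1) * m0 := by ring
        _ = AW Z * m0 := by rw [Nat.sub_add_cancel this]
    have h5 : ((n + (AW Z - 1) * m0 + x i : ℕ) : ℤ) =
        ((((n : ℤ) + α i).toNat + AW Z * m0 : ℕ) : ℤ) := by
      rw [← h4]
      push_cast
      rw [h3, h2]
      ring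
    exact_mod_cast h5
  rw [h1] at hd
  have hdA : q ^ 2 ∣ AW Z * m0 := by
    apply Dvd.dvd.mul_right
    unfold AW
    exact pow_dvd_pow_of_dvd ((Nat.Prime.dvd_factorial hq).2 hqW) 2
  rw [Nat.dvd_add_left hdA, sq] at hd
  exact (Nat.squarefree_iff_prime_squarefree.1 (hsq i)) q hq hd

/-- the progression condition -/
def IsAP {r : ℕ} (α : Fin r → ℤ) (ε : Fin r → ℕ) (β : ℤ) (d k : ℕ) : Prop :=
  ∀ a : ℤ, (∃ i, ε i = 1 ∧ α i = a) ↔ ∃ t : ℕ, t < k ∧ a = β + t * d

/-- the moments for the differences divisible by `Q` -/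
theorem fin2 {E : Set ℕ} (hE : AllExc E) (r j : ℕ) (η : ℝ) (hη : 0 < η) : ∃ Q : ℕ, 1 ≤ Q ∧
    ∀ (α : Fin r → ℤ) (ε : Fin r → ℕ) (β : ℤ) (d k : ℕ), Function.Injective α →
      (∀ i, ε i = 1 ∨ ε i = 2) → 1 ≤ k → 1 ≤ d → Q ∣ d → IsAP α ε β d k →
      ∃ C : ℕ, ∀ H N : ℕ, C ≤ H → C * H ≤ N → N ∉ E →
        ∑ x ∈ Icc 1 N, |∑ n ∈ Ioc x (x + H), GG α ε n| ^ j ≤
          (cst j + η) * ((∑ n ∈ Icc 1 N, |GG α ε n|) / N * H) ^ j * N := by
  set η' : ℝ := min η 1 with hη'
  have hη'0 : 0 < η' := lt_min hη one_pos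
  have hη'1 : η' ≤ 1 := min_le_right _ _
  have hη'η : η' ≤ η := min_le_left _ _
  set θ : ℝ := min (1 / 2) (η' / (16 * ((j : ℝ) + 1) * 4 ^ j)) with hθ
  have hθ0 : 0 < θ := by positivity
  have hθ1 : θ ≤ 1 / 2 := min_le_left _ _
  have hθ2 : 2 * θ * j * 4 ^ j ≤ η' / 8 := by
    have h1 : θ ≤ η' / (16 * ((j : ℝ) + 1) * 4 ^ j) := min_le_right _ _
    rw [le_div_iff₀ (by positivity)] at h1
    have h2 : 0 ≤ θ * 4 ^ j := by positivity
    nlinarith
  obtain ⟨Z, hZ2, hZ⟩ := sqf r θ hθ0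
  refine ⟨AW Z, AW_pos Z, fun α ε β d k hα hε hk hd hQ hap => ?_⟩
  obtain ⟨m0, b, x, hxZ, hGG⟩ := setup α ε hα hε β d k hd hk hap
  by_cases h0 : 0 < dv (VW x Z) (AW Z)
  · obtain ⟨N₀, hN₀⟩ := hZ x h0
    have hlow : ∀ N, N₀ ≤ N → (1 - θ) * (den (vs x Z) (AW Z) * N) ≤ ∑ n ∈ range N, ws x n := by
      intro N hN
      rw [vs_den, ws_sum]
      have := hN₀ N hN
      convert this
    have hkd : 1 ≤ k * d := Nat.mul_pos hk hd
    obtain ⟨C, hC⟩ := abs2 (l := fun n => l (n + b)) (g := gp b d k) (P := GG α ε) (l_pm.shift b)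
      (vs_wt x Z) (ws_wt x) (ws_le x Z) (gp_pm b d k) (AW_pos Z) (vs_per x Z) (by rw [vs_den]; exact h0)
      (exc_shift hE b (AW_pos Z) (vs x Z) (vs_wt x Z) (vs_per x Z)) (k * d) hkd (Dvd.dvd.mul_left hQ k) d hQ
      (gp_two b d k) (GG_le α ε) m0 hGG θ hθ0 N₀ hlow j η' hη'0 hη'1 hθ2 hθ1
    refine ⟨C, fun H N hH hN hNE => (hC H N hH hN hNE).trans ?_⟩
    apply mul_le_mul_of_nonneg_right _ (Nat.cast_nonneg N)
    apply mul_le_mul_of_nonneg_right _ (by positivity)
    linarith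
  · refine ⟨0, fun H N _ _ _ => ?_⟩
    simp only [empty α ε hε m0 x hxZ Z h0, sum_const_zero, abs_zero, zero_div, zero_mul, sum_const,
      Nat.card_Icc, Nat.add_sub_cancel, nsmul_eq_mul]
    rcases Nat.eq_zero_or_pos j with h | h
    · subst h
      have h1 : (1 : ℝ) ≤ cst 0 + η := by
        unfold cst
        rw [if_pos (by norm_num)]
        norm_num
        linarith
      simp only [pow_zero, mul_one]
      nlinarith [Nat.cast_nonneg (α := ℝ) N]
    · rw [zero_pow (by omega)]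
      simp

/-- the moments for all differences -/
theorem fin1 {E : Set ℕ} (hE : AllExc E) (r j : ℕ) (η : ℝ) (hη : 0 < η)
    (α : Fin r → ℤ) (ε : Fin r → ℕ) (β : ℤ) (d k : ℕ) (hα : Function.Injective α)
    (hε : ∀ i, ε i = 1 ∨ ε i = 2) (hk : 1 ≤ k) (hd : 1 ≤ d) (hap : IsAP α ε β d k) :
    ∃ C : ℕ, ∀ H N : ℕ, C ≤ H → C * H ≤ N → N ∉ E →
      ∑ x ∈ Icc 1 N, |∑ n ∈ Ioc x (x + H), GG α ε n| ^ j ≤
        ((((∑ n ∈ Icc 1 N, |GG α ε n|) / N) ^ j +
          ((∑ n ∈ Icc 1 N, |GG α ε n| - ∑ n ∈ Icc 1 N, |GG α ε n * GG α ε (n + d)|) / N) ^ j) / 2 + η) *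
            H ^ j * N := by
  set θ : ℝ := min (1 / 2) (η / (24 * ((j : ℝ) + 1) * 4 ^ j)) with hθ
  have hθ0 : 0 < θ := by positivity
  have hθ1 : θ ≤ 1 / 2 := min_le_left _ _
  have hθ2 : 3 * θ * j * 4 ^ j ≤ η / 8 := by
    have h1 : θ ≤ η / (24 * ((j : ℝ) + 1) * 4 ^ j) := min_le_right _ _
    rw [le_div_iff₀ (by positivity)] at h1
    have h2 : 0 ≤ θ * 4 ^ j := by positivity
    nlinarith
  obtain ⟨Z, hZ2, hZ⟩ := sqf r θ hθ0
  obtain ⟨m0, b, x, hxZ, hGG⟩ := setup α ε hα hε β d k hd hk hap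
  by_cases h0 : 0 < dv (VW x Z) (AW Z)
  · obtain ⟨N₀, hN₀⟩ := hZ x h0
    have hlow : ∀ N, N₀ ≤ N → (1 - θ) * (den (vs x Z) (AW Z) * N) ≤ ∑ n ∈ range N, ws x n := by
      intro N hN
      rw [vs_den, ws_sum]
      have := hN₀ N hN
      convert this
    have hkd : 1 ≤ k * d := Nat.mul_pos hk hd
    have hv2 : Wt (fun n => vs x Z n * vs x Z (n + d)) := (vs_wt x Z).mul (fun n => vs_wt x Z (n + d))
    have hp2 : ∀ n, (fun n => vs x Z n * vs x Z (n + d)) (n + AW Z) = (fun n => vs x Z n * vs x Z (n + d)) n := by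
      intro n
      simp only [vs_per]
      rw [show n + AW Z + d = n + d + AW Z by ring, vs_per]
    exact abs1 (l := fun n => l (n + b)) (g := gp b d k) (P := GG α ε) (l_pm.shift b)
      (vs_wt x Z) (ws_wt x) (ws_le x Z) (gp_pm b d k) (AW_pos Z) (vs_per x Z) (by rw [vs_den]; exact h0)
      (k * d) hkd d (exc_shift hE b (AW_pos Z) _ hv2 hp2)
      (gp_two b d k) (GG_le α ε) m0 hGG θ hθ0 N₀ hlow j η hη hθ2 hθ1
  · refine ⟨0, fun H N _ _ _ => ?_⟩
    simp only [empty α ε hε m0 x hxZ Z h0, sum_const_zero, abs_zero, zero_div, sum_const,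
      Nat.card_Icc, Nat.add_sub_cancel, nsmul_eq_mul, mul_zero, sub_zero]
    rcases Nat.eq_zero_or_pos j with h | h
    · subst h
      simp only [pow_zero, mul_one]
      nlinarith [Nat.cast_nonneg (α := ℝ) N]
    · rw [zero_pow (by omega), mul_zero]
      positivity

end Pool.Agent.R318.MU
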