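import Pool.Agent.R318.MU.Mom2

/-!
Library R318.MU (helper318): the moments of the window sums of a sign sequence on a periodic set, for a
general shift.
-/

set_option autoImplicit false

namespace Pool.Agent.R318.MU

open Finset
open Pool.Agent.R509.TT (W Pm W_add W_smul W_one W_mono W_abs_le W_abs W_shift W_sum)

variable {l v : ℕ → ℝ}

/-- the basic inequality for a general shift -/
lemma tentg {v g : ℕ → ℝ} (hv : Wt v) (hg : Pm g) (d H x : ℕ) :
    |W (fun n => v n * g n) H x| ≤ W v H x - W (fun n => v n * v (n + d)) H x / 2 +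
      W (fun n => v n * v (n + d) * (g n * g (n + d))) H x / 2 + 2 * d := by
  have h1 := W_shift (g := fun n => v n * g n) (hv.abs_mul_le hg) d H x
  have h1' := (abs_le.1 (W_shift (g := v) hv.abs d H x)).2
  have h2 : |W (fun n => v n * g n) H x + W (fun n => v (n + d) * g (n + d)) H x| ≤
      W v H x + W (fun n => v (n + d)) H x - W (fun n => v n * v (n + d)) H x +
        W (fun n => v n * v (n + d) * (g n * g (n + d))) H x := by
    rw [← W_add]
    refine (W_abs _ _ _).trans ?_
    have e : W v H x + W (fun n => v (n + d)) H x - W (fun n => v n * v (n + d)) H x +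
        W (fun n => v n * v (n + d) * (g n * g (n + d))) H x =
        W (fun n => v n + v (n + d) - v n * v (n + d) + v n * v (n + d) * (g n * g (n + d))) H x := by
      unfold W
      rw [← sum_add_distrib, ← sum_sub_distrib, ← sum_add_distrib]
    rw [e]
    apply W_mono
    intro n
    rcases hv n with h0 | h0 <;> rcases hv (n + d) with h0' | h0' <;> rcases hg n with h | h <;>
      rcases hg (n + d) with h' | h' <;> simp only [h0, h0', h, h'] <;> norm_num
  have h3 : 2 * W (fun n => v n * g n) H x = (W (fun n => v n * g n) H x +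
      W (fun n => v (n + d) * g (n + d)) H x) - (W (fun n => v (n + d) * g (n + d)) H x -
      W (fun n => v n * g n) H x) := by ring
  have h4 : 2 * |W (fun n => v n * g n) H x| = |2 * W (fun n => v n * g n) H x| := by
    rw [_root_.abs_mul, abs_two]
  have h5 : |2 * W (fun n => v n * g n) H x| ≤
      |W (fun n => v n * g n) H x + W (fun n => v (n + d) * g (n + d)) H x| +
      |W (fun n => v (n + d) * g (n + d)) H x - W (fun n => v n * g n) H x| := by
    rw [h3]
    exact abs_sub _ _
  rw [← h4] at h5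
  linarith

lemma conv_pow (a p t : ℝ) (ha : 0 ≤ a) (hp : 0 ≤ p) (ht : 0 ≤ t) (ht1 : t ≤ 1) (j : ℕ) :
    ((1 - t) * a + t * p) ^ j ≤ (1 - t) * a ^ j + t * p ^ j := by
  have := (convexOn_pow (𝕜 := ℝ) j).2 (Set.mem_Ici.2 ha) (Set.mem_Ici.2 hp) (by linarith : 0 ≤ 1 - t) ht (by ring)
  simpa using this

/-- the moments for a general shift -/
theorem genmom (hl : Pm l) (hv : Wt v) {A : ℕ} (hA : 1 ≤ A) (hp : ∀ n, v (n + A) = v n)
    {E : Set ℕ} (m : ℕ) (hm : 1 ≤ m) (d : ℕ) (hE : Exc l (fun n => v n * v (n + d)) E)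
    (g : ℕ → ℝ) (hg : Pm g) (hgd : ∀ n, g n * g (n + d) = l n * l (n + m))
    (j : ℕ) (ε : ℝ) (hε : 0 < ε) :
    ∃ C : ℕ, ∀ H N : ℕ, C ≤ H → C * H ≤ N → N ∉ E →
      ∑ x ∈ Icc 1 N, |W (fun n => v n * g n) H x| ^ j ≤
        ((den v A ^ j + (den v A - den (fun n => v n * v (n + d)) A) ^ j) / 2 + ε) * H ^ j * N := by
  set v2 : ℕ → ℝ := fun n => v n * v (n + d) with hv2d
  have hv2 : Wt v2 := hv.mul (fun n => hv (n + d))
  have hp2 : ∀ n, v2 (n + A) = v2 n := by
    intro n
    simp only [hv2d, hp]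
    rw [show n + A + d = n + d + A by ring, hp]
  set a := den v A with had
  set b := den v2 A with hbd
  have ha0 : 0 ≤ a := den_nonneg hv A
  have ha1 : a ≤ 1 := den_le_one hv A
  have hb0 : 0 ≤ b := den_nonneg hv2 A
  have hba : b ≤ a := by
    rw [hbd, had]
    unfold den
    apply div_le_div_of_nonneg_right _ (Nat.cast_nonneg _)
    apply sum_le_sum
    intro n _
    simp only [hv2d]
    rcases hv n with h | h <;> rcases hv (n + d) with h' | h' <;> rw [h, h'] <;> norm_num
  set B : ℝ := j * 3 ^ (j - 1) + 1 with hB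
  have hB0 : 0 < B := by positivity
  obtain ⟨δ, hδ0, hδh, hδε, hδb⟩ : ∃ δ : ℝ, 0 < δ ∧ δ ≤ 1 / 2 ∧ B * (2 * δ) ≤ ε / 2 ∧
      (0 < b → 2 * δ ≤ b * (ε / 2)) := by
    have h1 : ∀ δ : ℝ, δ ≤ ε / (4 * B) → B * (2 * δ) ≤ ε / 2 := by
      intro δ hδ
      have := mul_le_mul_of_nonneg_left (mul_le_mul_of_nonneg_left hδ (by norm_num : (0 : ℝ) ≤ 2)) hB0.le
      refine this.trans (le_of_eq ?_)
      field_simp
      norm_num
    by_cases hb : 0 < b
    · refine ⟨min (min (1 / 2) (ε / (4 * B))) (b * (ε / 4)), by positivity,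
        (min_le_left _ _).trans (min_le_left _ _), h1 _ ((min_le_left _ _).trans (min_le_right _ _)), fun _ => ?_⟩
      have := min_le_right (min (1 / 2) (ε / (4 * B))) (b * (ε / 4))
      linarith
    · exact ⟨min (1 / 2) (ε / (4 * B)), by positivity, min_le_left _ _, h1 _ (min_le_right _ _),
        fun h => absurd h hb⟩
  obtain ⟨C1, hC1⟩ := exc_win hl hv2 hE m hm δ hδ0
  obtain ⟨C2, hC2⟩ := exists_nat_ge (((A + 2 * d : ℕ) : ℝ) / δ)
  refine ⟨C1 + C2 + 1, fun H N hH hN hNE => ?_⟩
  have h1 := hC1 H N (by omega) (le_trans (Nat.mul_le_mul_right H (by omega)) hN) hNE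
  have hH0 : (0 : ℝ) < H := by exact_mod_cast (by omega : 0 < H)
  have hN0 : (0 : ℝ) ≤ N := Nat.cast_nonneg N
  have hd0 : (0 : ℝ) ≤ d := Nat.cast_nonneg d
  have hA0 : (0 : ℝ) ≤ A := Nat.cast_nonneg A
  have hAδ : (A : ℝ) + 2 * d ≤ δ * H := by
    rw [div_le_iff₀ hδ0] at hC2
    push_cast at hC2
    refine hC2.trans ?_
    rw [mul_comm]
    exact mul_le_mul_of_nonneg_left (by exact_mod_cast (by omega : C2 ≤ H)) hδ0.le
  have hw : ∀ x, W v H x ≤ (a + δ) * H := by
    intro x
    have := (abs_le.1 (W_per hv hA hp H x)).2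
    linarith
  have hw2 : ∀ x, (b - δ) * H ≤ W v2 H x ∧ W v2 H x ≤ (b + δ) * H := by
    intro x
    have := abs_le.1 (W_per hv2 hA hp2 H x)
    constructor <;> linarith [this.1, this.2]
  set q : ℕ → ℝ := fun x => (W v2 H x - W (pv l v2 m) H x) / (2 * H) with hq
  have hqH : ∀ x, H * q x = (W v2 H x - W (pv l v2 m) H x) / 2 := by
    intro x
    simp only [hq]
    field_simp
  have hq0 : ∀ x, 0 ≤ q x := by
    intro x
    have := (abs_le.1 (W_pv_abs hl hv2 m H x)).2
    exact div_nonneg (by linarith) (by positivity)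
  have hq1 : ∀ x, q x ≤ b + δ := by
    intro x
    have h2 := (abs_le.1 (W_pv_abs hl hv2 m H x)).1
    have h3 := (hw2 x).2
    simp only [hq]
    rw [div_le_iff₀ (by positivity)]
    linarith
  have hloc : ∀ x, |W (fun n => v n * g n) H x| ≤ H * (a + 2 * δ - q x) := by
    intro x
    have h2 := tentg hv hg d H x
    have h3 : (fun n => v n * v (n + d) * (g n * g (n + d))) = pv l v2 m := by
      funext n
      rw [hgd]
      rfl
    rw [h3] at h2
    have h4 := hqH x
    have h5 := hw x
    have h6 : W (fun n => v n * v (n + d)) H x = W v2 H x := rfl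
    rw [h6] at h2
    linarith
  have hmin : ∀ x, 0 ≤ min (q x) b := fun x => le_min (hq0 x) hb0
  have hloc2 : ∀ x, |W (fun n => v n * g n) H x| ^ j ≤ H ^ j * ((a - min (q x) b) ^ j + B * (2 * δ)) := by
    intro x
    have h2 : min (q x) b ≤ q x := min_le_left _ _
    have h2' : min (q x) b ≤ b := min_le_right _ _
    have h3 : |W (fun n => v n * g n) H x| ≤ H * ((a - min (q x) b) + 2 * δ) := by
      refine (hloc x).trans ?_
      exact mul_le_mul_of_nonneg_left (by linarith) hH0.le
    have h4 := pow_le_pow_left₀ (abs_nonneg _) h3 j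
    rw [mul_pow] at h4
    refine h4.trans ?_
    apply mul_le_mul_of_nonneg_left _ (by positivity)
    have h5 := hmin x
    have h6 := pow_add_le (a - min (q x) b) (2 * δ) 3 (by linarith) (by positivity) (by linarith) j
    refine h6.trans ?_
    have : (j : ℝ) * 3 ^ (j - 1) * (2 * δ) ≤ B * (2 * δ) := by
      apply mul_le_mul_of_nonneg_right _ (by positivity)
      rw [hB]; linarith
    linarith
  have hmain : ∑ x ∈ Icc 1 N, (a - min (q x) b) ^ j ≤ ((a ^ j + (a - b) ^ j) / 2 + ε / 2) * N := by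
    rcases hb0.eq_or_lt with hb | hb
    · have h2 : ∀ x ∈ Icc 1 N, (a - min (q x) b) ^ j = a ^ j := by
        intro x _
        rw [← hb, min_eq_right (hq0 x), sub_zero]
      rw [sum_congr rfl h2, sum_const, Nat.card_Icc, Nat.add_sub_cancel, nsmul_eq_mul, ← hb, sub_zero]
      have : 0 ≤ ε / 2 * N := by positivity
      linarith
    · have hD0 : 0 ≤ a ^ j - (a - b) ^ j := by
        have := pow_le_pow_left₀ (by linarith : 0 ≤ a - b) (by linarith : a - b ≤ a) j
        linarith
      have hD1 : a ^ j - (a - b) ^ j ≤ 1 := by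
        have h2 : a ^ j ≤ 1 := pow_le_one₀ ha0 ha1
        have h3 : 0 ≤ (a - b) ^ j := pow_nonneg (by linarith) j
        linarith
      set D := a ^ j - (a - b) ^ j with hD
      have h2 : ∀ x ∈ Icc 1 N, (a - min (q x) b) ^ j ≤ a ^ j - (q x - δ) / b * D := by
        intro x _
        set q' := min (q x) b with hq'
        have e1 : q x - δ ≤ q' := le_min (by linarith) (by linarith [hq1 x])
        have e2 : q' ≤ b := min_le_right _ _
        have e3 : 0 ≤ q' := hmin x
        have e4 := conv_pow a (a - b) (q' / b) ha0 (by linarith) (by positivity)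
          (by rw [div_le_one hb]; exact e2) j
        have e5 : (1 - q' / b) * a + q' / b * (a - b) = a - q' := by
          field_simp
          ring
        rw [e5] at e4
        refine e4.trans ?_
        have e6 : (1 - q' / b) * a ^ j + q' / b * (a - b) ^ j = a ^ j - q' / b * D := by
          rw [hD]; ring
        rw [e6]
        have e7 : (q x - δ) / b ≤ q' / b := div_le_div_of_nonneg_right e1 hb.le
        have e8 := mul_le_mul_of_nonneg_right e7 hD0
        linarith
      refine (sum_le_sum h2).trans ?_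
      rw [sum_sub_distrib, ← sum_mul, ← sum_div, sum_const, Nat.card_Icc, Nat.add_sub_cancel, nsmul_eq_mul]
      have h3 : (b / 2 - 2 * δ) * N ≤ ∑ x ∈ Icc 1 N, (q x - δ) := by
        have e1 : H * ∑ x ∈ Icc 1 N, q x = (∑ x ∈ Icc 1 N, W v2 H x - ∑ x ∈ Icc 1 N, W (pv l v2 m) H x) / 2 := by
          rw [mul_sum, sum_congr rfl fun x _ => hqH x, ← sum_div, sum_sub_distrib]
        have e2 : (b - δ) * H * N ≤ ∑ x ∈ Icc 1 N, W v2 H x := by
          have := sum_le_sum fun x (_ : x ∈ Icc 1 N) => (hw2 x).1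
          rw [sum_const, Nat.card_Icc, Nat.add_sub_cancel, nsmul_eq_mul] at this
          linarith
        have e3 := (abs_le.1 h1).2
        have e4 : H * ((b / 2 - δ) * N) ≤ H * ∑ x ∈ Icc 1 N, q x := by
          rw [e1]
          linarith
        have e5 := le_of_mul_le_mul_left e4 hH0
        rw [sum_sub_distrib, sum_const, Nat.card_Icc, Nat.add_sub_cancel, nsmul_eq_mul]
        linarith
      have h4 : (b / 2 - 2 * δ) * N / b ≤ (∑ x ∈ Icc 1 N, (q x - δ)) / b :=
        div_le_div_of_nonneg_right h3 hb.le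
      have h5 : (b / 2 - 2 * δ) * N / b = N / 2 - 2 * δ / b * N := by
        field_simp
      rw [h5] at h4
      have h6 : 2 * δ / b ≤ ε / 2 := by
        rw [div_le_iff₀ hb]
        have := hδb hb
        linarith
      have h7 : 2 * δ / b * N ≤ ε / 2 * N := mul_le_mul_of_nonneg_right h6 hN0
      have h8 := mul_le_mul_of_nonneg_right h4 hD0
      have h9 : 2 * δ / b * N * D ≤ ε / 2 * N * 1 := mul_le_mul h7 hD1 hD0 (by positivity)
      have h10 : (a - b) ^ j = a ^ j - D := by rw [hD]; ring
      rw [h10]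
      linarith
  refine (sum_le_sum fun x _ => hloc2 x).trans ?_
  rw [← mul_sum, sum_add_distrib, sum_const, Nat.card_Icc, Nat.add_sub_cancel, nsmul_eq_mul]
  have h3 := mul_le_mul_of_nonneg_left hδε hN0
  have h4 : ∑ x ∈ Icc 1 N, (a - min (q x) b) ^ j + N * (B * (2 * δ)) ≤
      ((a ^ j + (a - b) ^ j) / 2 + ε) * N := by linarith
  refine (mul_le_mul_of_nonneg_left h4 (by positivity)).trans (le_of_eq ?_)
  ring

end Pool.Agent.R318.MU
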