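import Pool.Agent.R318.MU.Gen

/-!
Library R318.MU (helper318): from a periodic set to a subset of nearly the same size, and shifts.
-/

set_option autoImplicit false

namespace Pool.Agent.R318.MU

open Finset
open Pool.Agent.R509.TT (W Pm W_add W_smul W_one W_mono W_abs_le W_abs W_shift W_sum)

variable {l v w g : ℕ → ℝ}

lemma W_Ioc (f : ℕ → ℝ) (H x : ℕ) : ∑ n ∈ Ioc x (x + H), f n = W f H x := by
  have h1 : Ioc x (x + H) = (range H).image (fun i => x + 1 + i) := by
    ext n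
    simp only [mem_Ioc, mem_image, mem_range]
    constructor
    · rintro ⟨a, b⟩
      exact ⟨n - x - 1, by omega, by omega⟩
    · rintro ⟨i, hi, rfl⟩
      omega
  rw [h1, sum_image (fun a _ b _ h => by simpa using h)]
  rfl

lemma range_up (hv : Wt v) {A : ℕ} (hA : 1 ≤ A) (hp : ∀ n, v (n + A) = v n) (N : ℕ) :
    ∑ n ∈ range N, v n ≤ den v A * N + A := by
  have h1 := (abs_le.1 (W_per hv hA hp N (A - 1))).2
  have h2 : W v N (A - 1) = ∑ n ∈ range N, v n := by
    unfold W
    apply sum_congr rfl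
    intro i _
    rw [show A - 1 + 1 + i = i + A by omega, hp]
  rw [h2] at h1
  linarith

lemma Icc_up (hv : Wt v) {A : ℕ} (hA : 1 ≤ A) (hp : ∀ n, v (n + A) = v n) (N : ℕ) :
    ∑ n ∈ Icc 1 N, v n ≤ den v A * N + A := by
  have h1 := (abs_le.1 (W_per hv hA hp N 0)).2
  have h2 : W v N 0 = ∑ n ∈ Icc 1 N, v n := by
    have h3 := W_Ioc v N 0
    rw [← h3]
    apply sum_congr _ (fun _ _ => rfl)
    ext n
    rw [mem_Ioc, mem_Icc]
    omega
  rw [h2] at h1
  linarith

/-- from the periodic set to a subset of it of nearly the same size -/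
lemma sub_mom (hg : Pm g) (hv : Wt v) (hw : Wt w) (hwv : ∀ n, w n ≤ v n) {A : ℕ} (hA : 1 ≤ A)
    (hp : ∀ n, v (n + A) = v n) (ha : 0 < den v A) (θ : ℝ) (hθ : 0 < θ) (N₀ : ℕ)
    (hlow : ∀ N, N₀ ≤ N → (1 - θ) * (den v A * N) ≤ ∑ n ∈ range N, w n) (j : ℕ) :
    ∃ C : ℕ, ∀ H N : ℕ, C ≤ H → C * H ≤ N →
      ∑ x ∈ Icc 1 N, |W (fun n => w n * g n) H x| ^ j ≤ ∑ x ∈ Icc 1 N, |W (fun n => v n * g n) H x| ^ j +
        2 * θ * j * 4 ^ j * ((den v A * H) ^ j * N) := by
  set a := den v A with had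
  obtain ⟨C3, hC3⟩ := W_close hv hA hp ha 1 one_pos
  obtain ⟨C4, hC4⟩ := exists_nat_ge (((A : ℝ) + 4) / (θ * a))
  refine ⟨N₀ + C3 + C4 + 1, fun H N hH hN => ?_⟩
  have hH1 : (1 : ℝ) ≤ H := by exact_mod_cast (by omega : 1 ≤ H)
  have hH0 : (0 : ℝ) < H := by linarith
  have hCN : N₀ + C3 + C4 + 1 ≤ N := le_trans (Nat.le_mul_of_pos_right _ (by omega)) hN
  have hN0 : (0 : ℝ) ≤ N := Nat.cast_nonneg N
  set V : ℝ := a * H with hV
  have hV0 : 0 < V := by positivity
  have hA0 : (0 : ℝ) ≤ A := Nat.cast_nonneg A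
  set u : ℕ → ℝ := fun n => v n - w n with hu
  have hu0 : ∀ n, 0 ≤ u n := fun n => sub_nonneg.2 (hwv n)
  have hu1 : ∀ n, u n ≤ v n := fun n => by
    simp only [hu]
    linarith [hw.nonneg n]
  have huabs : ∀ n, |u n| ≤ 1 := fun n => by
    rw [abs_of_nonneg (hu0 n)]
    exact (hu1 n).trans (hv.le_one n)
  have hWu0 : ∀ x, 0 ≤ W u H x := fun x => by unfold W; exact sum_nonneg fun _ _ => hu0 _
  have hWu : ∀ x, W u H x ≤ 2 * V := fun x => by
    refine (W_mono hu1 H x).trans ?_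
    have := (hC3 H x (by omega)).2
    linarith
  have hWv : ∀ x, |W (fun n => v n * g n) H x| ≤ 2 * V := fun x => by
    refine (W_abs _ _ _).trans ?_
    have h1 : W (fun n => |v n * g n|) H x = W v H x := by
      unfold W
      exact sum_congr rfl fun i _ => hv.abs_mul hg _
    rw [h1]
    have := (hC3 H x (by omega)).2
    linarith
  have hsum : ∑ x ∈ Icc 1 N, W u H x ≤ 2 * θ * V * N := by
    have h1 := (le_abs_self _).trans (W_sum huabs H N)
    have h2 : |∑ n ∈ range N, u n| ≤ θ * (a * N) + A := by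
      rw [abs_of_nonneg (sum_nonneg fun n _ => hu0 n)]
      simp only [hu]
      rw [sum_sub_distrib]
      have h3 := hlow N (by omega)
      have h4 := range_up hv hA hp N
      linarith
    have h3 : ((A : ℝ) + 4) * H ≤ θ * (a * N) := by
      rw [div_le_iff₀ (by positivity)] at hC4
      have h4 : ((C4 : ℕ) : ℝ) * H ≤ N := by
        have : C4 * H ≤ N := le_trans (Nat.mul_le_mul_right H (by omega)) hN
        exact_mod_cast this
      calc ((A : ℝ) + 4) * H ≤ (C4 * (θ * a)) * H := mul_le_mul_of_nonneg_right hC4 hH0.le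
        _ = θ * a * (C4 * H) := by ring
        _ ≤ θ * a * N := mul_le_mul_of_nonneg_left h4 (by positivity)
        _ = θ * (a * N) := by ring
    have h4 : |∑ n ∈ range N, u n| + 2 * ((H : ℝ) + 1) ≤ 2 * (θ * (a * N)) := by nlinarith
    have h5 := mul_le_mul_of_nonneg_left h4 hH0.le
    refine h1.trans (h5.trans (le_of_eq ?_))
    rw [hV]; ring
  have hloc : ∀ x ∈ Icc 1 N, |W (fun n => w n * g n) H x| ^ j ≤ |W (fun n => v n * g n) H x| ^ j +
      j * (4 * V) ^ (j - 1) * W u H x := by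
    intro x _
    have h1 : |W (fun n => w n * g n) H x| ≤ |W (fun n => v n * g n) H x| + W u H x := by
      have h2 : W (fun n => w n * g n) H x = W (fun n => v n * g n) H x - W (fun n => u n * g n) H x := by
        unfold W
        rw [← sum_sub_distrib]
        apply sum_congr rfl
        intro i _
        simp only [hu]
        ring
      have h3 : |W (fun n => u n * g n) H x| ≤ W u H x := by
        refine (W_abs _ _ _).trans (le_of_eq ?_)
        unfold W
        apply sum_congr rfl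
        intro i _
        simp only
        rw [_root_.abs_mul, hg.abs, mul_one, abs_of_nonneg (hu0 _)]
      rw [h2]
      refine (abs_sub _ _).trans ?_
      linarith
    have h2 := pow_le_pow_left₀ (abs_nonneg _) h1 j
    refine h2.trans ?_
    exact pow_add_le _ _ (4 * V) (abs_nonneg _) (hWu0 x) (by linarith [hWu x, hWv x]) j
  refine (sum_le_sum hloc).trans ?_
  rw [sum_add_distrib, ← mul_sum]
  have h1 : (j : ℝ) * (4 * V) ^ (j - 1) * ∑ x ∈ Icc 1 N, W u H x ≤ j * (4 * V) ^ (j - 1) * (2 * θ * V * N) :=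
    mul_le_mul_of_nonneg_left hsum (by positivity)
  have h2 : (j : ℝ) * (4 * V) ^ (j - 1) * (2 * θ * V * N) ≤ 2 * θ * j * 4 ^ j * (V ^ j * N) := by
    rcases Nat.eq_zero_or_pos j with h | h
    · subst h; simp
    · obtain ⟨i, rfl⟩ := Nat.exists_eq_add_of_le' h
      rw [Nat.add_sub_cancel, mul_pow]
      have e : ((i + 1 : ℕ) : ℝ) * (4 ^ i * V ^ i) * (2 * θ * V * N) =
          2 * θ * (i + 1 : ℕ) * 4 ^ i * (V ^ (i + 1) * N) := by ring
      rw [e]
      apply mul_le_mul_of_nonneg_right _ (by positivity)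
      apply mul_le_mul_of_nonneg_left _ (by positivity)
      exact pow_le_pow_right₀ (by norm_num) (by omega)
  linarith

lemma shift_eq (Φ : ℕ → ℝ) (m N : ℕ) :
    ∑ x ∈ Icc 1 N, Φ (x + m) + Φ (N + 1 + m) = Φ (1 + m) + ∑ x ∈ Icc 1 N, Φ (x + (m + 1)) := by
  induction N with
  | zero => simp
  | succ N ih =>
    rw [sum_Icc_succ_top (by omega), sum_Icc_succ_top (by omega), ih]
    rw [show N + 1 + (m + 1) = N + 1 + 1 + m by ring]
    ring

lemma shift_le (Φ : ℕ → ℝ) (M : ℝ) (h0 : ∀ n, 0 ≤ Φ n) (h1 : ∀ n, Φ n ≤ M) (m N : ℕ) :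
    |∑ x ∈ Icc 1 N, Φ (x + m) - ∑ x ∈ Icc 1 N, Φ x| ≤ m * M := by
  induction m with
  | zero => simp
  | succ m ih =>
    have h2 := shift_eq Φ m N
    have h3 := h0 (1 + m)
    have h4 := h0 (N + 1 + m)
    have h5 := h1 (1 + m)
    have h6 := h1 (N + 1 + m)
    have h7 := abs_le.1 ih
    push_cast
    rw [abs_le]
    constructor <;> linarith [h7.1, h7.2]

end Pool.Agent.R318.MU
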