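import Pool.Agent.R509.TT.Loc
import Pool.Agent.R509.TT.Mom

/-!
Library R318.MU (helper318): the window inequalities of `R509.TT` (helper509) for sign sequences
restricted to a periodic set which is invariant under the shift.
-/

set_option autoImplicit false

namespace Pool.Agent.R318.MU

open Finset
open Pool.Agent.R509.TT (W Pm W_add W_smul W_one W_mono W_abs_le W_abs W_shift W_sum)

/-- weights with values `0` and `1` -/
def Wt (v : ℕ → ℝ) : Prop := ∀ n, v n = 0 ∨ v n = 1

lemma Wt.nonneg {v : ℕ → ℝ} (hv : Wt v) (n : ℕ) : 0 ≤ v n := by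
  rcases hv n with h | h <;> rw [h] <;> norm_num

lemma Wt.le_one {v : ℕ → ℝ} (hv : Wt v) (n : ℕ) : v n ≤ 1 := by
  rcases hv n with h | h <;> rw [h] <;> norm_num

lemma Wt.abs {v : ℕ → ℝ} (hv : Wt v) (n : ℕ) : |v n| ≤ 1 := by
  rw [abs_of_nonneg (hv.nonneg n)]; exact hv.le_one n

lemma Wt.mul {v w : ℕ → ℝ} (hv : Wt v) (hw : Wt w) : Wt (fun n => v n * w n) := by
  intro n
  rcases hv n with h | h <;> rcases hw n with h' | h' <;> simp [h, h']

lemma Wt.abs_mul {v g : ℕ → ℝ} (hv : Wt v) (hg : Pm g) (n : ℕ) : |v n * g n| = v n := by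
  rw [_root_.abs_mul, hg.abs n, mul_one, abs_of_nonneg (hv.nonneg n)]

lemma Wt.abs_mul_le {v g : ℕ → ℝ} (hv : Wt v) (hg : Pm g) (n : ℕ) : |v n * g n| ≤ 1 := by
  rw [hv.abs_mul hg]; exact hv.le_one n

lemma per_mul {v : ℕ → ℝ} {A : ℕ} (hp : ∀ n, v (n + A) = v n) (k n : ℕ) : v (n + k * A) = v n := by
  induction k with
  | zero => simp
  | succ k ih => rw [show n + (k + 1) * A = n + k * A + A by ring, hp, ih]

lemma per_dvd {v : ℕ → ℝ} {A m : ℕ} (hp : ∀ n, v (n + A) = v n) (hm : A ∣ m) (n : ℕ) :
    v (n + m) = v n := by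
  obtain ⟨k, rfl⟩ := hm
  rw [mul_comm A k]
  exact per_mul hp k n

/-- the density of a periodic weight -/
noncomputable def den (v : ℕ → ℝ) (A : ℕ) : ℝ := (∑ n ∈ range A, v n) / A

lemma per_sum {v : ℕ → ℝ} {A : ℕ} (hA : 1 ≤ A) (hp : ∀ n, v (n + A) = v n) (x : ℕ) :
    ∑ i ∈ range A, v (x + i) = den v A * A := by
  have hA0 : (A : ℝ) ≠ 0 := by
    have : (0 : ℝ) < A := by exact_mod_cast hA
    exact this.ne'
  induction x with
  | zero =>
    unfold den
    rw [div_mul_cancel₀ _ hA0]
    simp
  | succ x ih =>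
    rw [← ih]
    have e1 : ∑ i ∈ range (A + 1), v (x + i) = ∑ i ∈ range A, v (x + i) + v (x + A) := sum_range_succ _ _
    have e2 : ∑ i ∈ range (A + 1), v (x + i) = ∑ i ∈ range A, v (x + (i + 1)) + v (x + 0) :=
      sum_range_succ' _ _
    have e3 : ∑ i ∈ range A, v (x + 1 + i) = ∑ i ∈ range A, v (x + (i + 1)) := by
      apply sum_congr rfl
      intro i _
      congr 1
      ring
    rw [e3]
    have := hp x
    rw [add_zero] at e2
    linarith

lemma den_nonneg {v : ℕ → ℝ} (hv : Wt v) (A : ℕ) : 0 ≤ den v A := by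
  unfold den
  exact div_nonneg (sum_nonneg fun n _ => hv.nonneg n) (Nat.cast_nonneg _)

lemma den_le_one {v : ℕ → ℝ} (hv : Wt v) (A : ℕ) : den v A ≤ 1 := by
  unfold den
  rcases Nat.eq_zero_or_pos A with h | h
  · subst h; simp
  · rw [div_le_one (by exact_mod_cast h)]
    refine (sum_le_sum fun n _ => hv.le_one n).trans (le_of_eq ?_)
    simp

/-- the window sums of a periodic weight -/
lemma W_per {v : ℕ → ℝ} {A : ℕ} (hv : Wt v) (hA : 1 ≤ A) (hp : ∀ n, v (n + A) = v n) (H : ℕ) :
    ∀ x : ℕ, |W v H x - den v A * H| ≤ A := by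
  have hA0 : (0 : ℝ) < A := by exact_mod_cast hA
  induction H using Nat.strong_induction_on with
  | _ H ih =>
    intro x
    rcases lt_or_ge H A with h | h
    · have h1 : 0 ≤ W v H x := by
        unfold W; exact sum_nonneg fun _ _ => hv.nonneg _
      have h2 : W v H x ≤ H := by
        have := W_abs_le hv.abs H x
        exact (le_abs_self _).trans this
      have h3 := den_nonneg hv A
      have h4 := den_le_one hv A
      have h5 : (H : ℝ) < A := by exact_mod_cast h
      have h6 : (0 : ℝ) ≤ H := Nat.cast_nonneg H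
      have h7 : den v A * H ≤ H := mul_le_of_le_one_left h6 h4
      have h8 : 0 ≤ den v A * H := mul_nonneg h3 h6
      rw [abs_le]
      constructor <;> linarith
    · obtain ⟨K, rfl⟩ := Nat.exists_eq_add_of_le h
      have h1 := ih K (by omega) (x + A)
      have h2 : W v (A + K) x = den v A * A + W v K (x + A) := by
        unfold W
        rw [sum_range_add, per_sum hA hp (x + 1)]
        congr 1
        apply sum_congr rfl
        intro i _
        congr 1
        ring
      rw [h2]
      push_cast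
      rw [show den v A * A + W v K (x + A) - den v A * (A + K) = W v K (x + A) - den v A * K by ring]
      exact h1

/-- the basic inequality -/
lemma tentv {v g : ℕ → ℝ} (hv : Wt v) (hg : Pm g) (d : ℕ) (hvd : ∀ n, v (n + d) = v n) (H x : ℕ) :
    2 * |W (fun n => v n * g n) H x| ≤ W v H x + W (fun n => v n * (g n * g (n + d))) H x + 2 * d := by
  have h1 := W_shift (g := fun n => v n * g n) (hv.abs_mul_le hg) d H x
  have h2 : |W (fun n => v n * g n) H x + W (fun n => v (n + d) * g (n + d)) H x| ≤
      W v H x + W (fun n => v n * (g n * g (n + d))) H x := by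
    rw [← W_add]
    refine (W_abs _ _ _).trans ?_
    rw [← W_add]
    apply W_mono
    intro n
    simp only [hvd n]
    rcases hv n with h0 | h0 <;> rcases hg n with h | h <;> rcases hg (n + d) with h' | h' <;>
      simp only [h0, h, h'] <;> norm_num
  have h3 : 2 * W (fun n => v n * g n) H x = (W (fun n => v n * g n) H x +
      W (fun n => v (n + d) * g (n + d)) H x) - (W (fun n => v (n + d) * g (n + d)) H x -
      W (fun n => v n * g n) H x) := by ring
  have h4 : 2 * |W (fun n => v n * g n) H x| = |2 * W (fun n => v n * g n) H x| := by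
    rw [_root_.abs_mul, abs_two]
  rw [h4, h3]
  refine (abs_sub _ _).trans ?_
  linarith

section

variable (l v : ℕ → ℝ)

/-- the product of two values, weighted -/
noncomputable def pv (m n : ℕ) : ℝ := v n * (l n * l (n + m))

/-- `1 - l(n) l(n + m)`, weighted -/
noncomputable def qv (m n : ℕ) : ℝ := v n * (1 - l n * l (n + m))

/-- the square of the sum over a progression of length `J`, weighted -/
noncomputable def av (J m n : ℕ) : ℝ := v n * (∑ i ∈ range J, l (n + i * m)) ^ 2

variable {l v}

lemma pm2 (hl : Pm l) (a b : ℕ) : Pm (fun n => l (n + a) * l (n + b)) := by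
  intro n
  rcases hl (n + a) with h | h <;> rcases hl (n + b) with h' | h' <;> simp [h, h']

lemma pp_pm (hl : Pm l) (m : ℕ) : Pm (fun n => l n * l (n + m)) := hl.mul (hl.shift m)

lemma pv_abs (hl : Pm l) (hv : Wt v) (m n : ℕ) : |pv l v m n| ≤ 1 :=
  hv.abs_mul_le (pp_pm hl m) n

lemma pv_le_v (hl : Pm l) (hv : Wt v) (m n : ℕ) : |pv l v m n| = v n :=
  hv.abs_mul (pp_pm hl m) n

lemma W_pv_abs (hl : Pm l) (hv : Wt v) (m H x : ℕ) : |W (pv l v m) H x| ≤ W v H x := by
  refine (W_abs _ _ _).trans (le_of_eq ?_)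
  unfold W
  apply sum_congr rfl
  intro i _
  exact pv_le_v hl hv m _

lemma qv_nonneg (hl : Pm l) (hv : Wt v) (m n : ℕ) : 0 ≤ qv l v m n := by
  unfold qv
  rcases hv n with h0 | h0 <;> rcases pp_pm hl m n with h | h <;> simp only at h <;>
    rw [h0, h] <;> norm_num

lemma qv_le (hl : Pm l) (hv : Wt v) (m n : ℕ) : qv l v m n ≤ 2 := by
  unfold qv
  rcases hv n with h0 | h0 <;> rcases pp_pm hl m n with h | h <;> simp only at h <;>
    rw [h0, h] <;> norm_num

lemma W_qv (m H x : ℕ) : W (qv l v m) H x = W v H x - W (pv l v m) H x := by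
  unfold W qv pv
  rw [← sum_sub_distrib]
  apply sum_congr rfl
  intro i _
  ring

lemma vmul {m : ℕ} (hvm : ∀ n, v (n + m) = v n) (k n : ℕ) : v (n + k * m) = v n := per_mul hvm k n

/-- the triangle inequality for signs -/
lemma triv (hl : Pm l) (hv : Wt v) {m : ℕ} (hvm : ∀ n, v (n + m) = v n) (n i d : ℕ) :
    v n * (1 - l (n + i * m) * l (n + (i + d) * m)) ≤ ∑ s ∈ range d, qv l v m (n + (i + s) * m) := by
  induction d with
  | zero => simp [hl.sq]
  | succ d ih =>
    rw [sum_range_succ]
    have h1 : qv l v m (n + (i + d) * m) = v n * (1 - l (n + (i + d) * m) * l (n + (i + (d + 1)) * m)) := by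
      unfold qv
      rw [vmul hvm]
      congr 4
      ring
    rw [h1]
    rcases hv n with h0 | h0 <;> rcases hl (n + i * m) with h | h <;> rcases hl (n + (i + d) * m) with h' | h' <;>
      rcases hl (n + (i + (d + 1)) * m) with h'' | h'' <;> rw [h0, h, h'] at ih <;> rw [h0, h, h', h''] <;> linarith

/-- the same for the sums over windows -/
lemma tri_W (hl : Pm l) (hv : Wt v) {m : ℕ} (hvm : ∀ n, v (n + m) = v n) (i d H x : ℕ) :
    W v H x - W (fun n => v n * (l (n + i * m) * l (n + (i + d) * m))) H x ≤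
    d * (W (qv l v m) H x + 4 * ((i + d : ℕ) * m)) := by
  have h1 : W (fun n => v n * (1 - l (n + i * m) * l (n + (i + d) * m))) H x ≤
      W (fun n => ∑ s ∈ range d, qv l v m (n + (i + s) * m)) H x := W_mono (fun n => triv hl hv hvm n i d) H x
  have h2 : W (fun n => v n * (1 - l (n + i * m) * l (n + (i + d) * m))) H x =
      W v H x - W (fun n => v n * (l (n + i * m) * l (n + (i + d) * m))) H x := by
    unfold W
    rw [← sum_sub_distrib]
    apply sum_congr rfl
    intro j _
    ring
  have h3 : W (fun n => ∑ s ∈ range d, qv l v m (n + (i + s) * m)) H x =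
      ∑ s ∈ range d, W (fun n => qv l v m (n + (i + s) * m)) H x := by
    unfold W
    rw [sum_comm]
  rw [h2, h3] at h1
  refine h1.trans ?_
  have h4 : ∀ s ∈ range d, W (fun n => qv l v m (n + (i + s) * m)) H x ≤
      W (qv l v m) H x + 4 * ((i + d : ℕ) * m) := by
    intro s hs
    rw [mem_range] at hs
    have h5 := W_shift (g := fun n => qv l v m n / 2) (fun n => by
      rw [abs_of_nonneg (by have := qv_nonneg hl hv m n; positivity)]
      have := qv_le hl hv m n
      linarith) ((i + s) * m) H x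
    have h6 : W (fun n => qv l v m (n + (i + s) * m) / 2) H x = W (fun n => qv l v m (n + (i + s) * m)) H x / 2 := by
      unfold W; rw [sum_div]
    have h7 : W (fun n => qv l v m n / 2) H x = W (qv l v m) H x / 2 := by
      unfold W; rw [sum_div]
    rw [h6, h7] at h5
    have h8 := (abs_le.1 h5).2
    have h9 : (((i + s) * m : ℕ) : ℝ) ≤ ((i + d : ℕ) : ℝ) * m := by
      rw [Nat.cast_mul]
      apply mul_le_mul_of_nonneg_right _ (Nat.cast_nonneg m)
      exact_mod_cast (by omega : i + s ≤ i + d)
    linarith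
  refine (sum_le_sum h4).trans (le_of_eq ?_)
  rw [sum_const, card_range, nsmul_eq_mul]

lemma sum_dist (J : ℕ) : ∑ i ∈ range J, ∑ j ∈ range J, |(i : ℝ) - j| = ((J : ℝ) ^ 3 - J) / 3 := by
  induction J with
  | zero => simp
  | succ J ih =>
    have h1 : ∑ i ∈ range J, |((i : ℕ) : ℝ) - J| = J * (J + 1) / 2 := by
      have h2 : ∀ i ∈ range J, |((i : ℕ) : ℝ) - J| = J - i := by
        intro i hi
        rw [mem_range] at hi
        have : (i : ℝ) < J := by exact_mod_cast hi
        rw [abs_of_neg (by linarith)]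
        ring
      rw [sum_congr rfl h2]
      clear h2 ih
      induction J with
      | zero => simp
      | succ J ih =>
        rw [sum_range_succ]
        have h3 : ∑ i ∈ range J, (((J + 1 : ℕ) : ℝ) - i) = ∑ i ∈ range J, ((J : ℝ) - i) + J := by
          rw [show (J : ℝ) = ∑ i ∈ range J, (1 : ℝ) by simp, ← sum_add_distrib]
          apply sum_congr rfl
          intro i _
          push_cast
          simp
          ring
        rw [h3, ih]
        push_cast
        ring
    rw [sum_range_succ]
    simp only [sum_range_succ, sum_add_distrib]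
    rw [ih, h1]
    have h2 : ∑ j ∈ range J, |(J : ℝ) - j| = J * (J + 1) / 2 := by
      rw [← h1]
      apply sum_congr rfl
      intro i _
      exact abs_sub_comm _ _
    rw [h2]
    push_cast
    simp
    ring

/-- expanding the square -/
lemma W_av (J m H x : ℕ) : W (av l v J m) H x =
    ∑ i ∈ range J, ∑ j ∈ range J, W (fun n => v n * (l (n + i * m) * l (n + j * m))) H x := by
  unfold W av
  have h1 : ∀ n : ℕ, v n * (∑ i ∈ range J, l (n + i * m)) ^ 2 =
      ∑ i ∈ range J, ∑ j ∈ range J, v n * (l (n + i * m) * l (n + j * m)) := by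
    intro n
    rw [sq, sum_mul_sum, mul_sum]
    apply sum_congr rfl
    intro i _
    rw [mul_sum]
  simp only [h1]
  rw [sum_comm]
  apply sum_congr rfl
  intro i _
  rw [sum_comm]

/-- the lower bound in one window -/
lemma av_lower (hl : Pm l) (hv : Wt v) {m : ℕ} (hvm : ∀ n, v (n + m) = v n) (J H x : ℕ) :
    (J : ℝ) ^ 2 * W v H x - W (av l v J m) H x ≤
      ((J : ℝ) ^ 3 - J) / 3 * (W (qv l v m) H x + 8 * (J * m)) := by
  have h0 : ∀ i ∈ range J, ∀ j ∈ range J, W v H x - W (fun n => v n * (l (n + i * m) * l (n + j * m))) H x ≤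
      |(i : ℝ) - j| * (W (qv l v m) H x + 8 * (J * m)) := by
    intro i hi j hj
    rw [mem_range] at hi hj
    have hq : 0 ≤ W (qv l v m) H x := by unfold W; exact sum_nonneg fun _ _ => qv_nonneg hl hv _ _
    have hm0 : (0 : ℝ) ≤ m := Nat.cast_nonneg m
    have hJ0 : (0 : ℝ) ≤ J := Nat.cast_nonneg J
    rcases le_total i j with h | h
    · obtain ⟨d, rfl⟩ := Nat.exists_eq_add_of_le h
      refine (tri_W hl hv hvm i d H x).trans ?_
      have h1 : |(i : ℝ) - (i + d : ℕ)| = d := by
        push_cast
        rw [show (i : ℝ) - (i + d) = -d by ring, abs_neg, Nat.abs_cast]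
      rw [h1]
      apply mul_le_mul_of_nonneg_left _ (Nat.cast_nonneg d)
      have h2 : ((i + d : ℕ) : ℝ) ≤ J := by exact_mod_cast hj.le
      nlinarith
    · obtain ⟨d, rfl⟩ := Nat.exists_eq_add_of_le h
      have h3 : (fun n => v n * (l (n + (j + d) * m) * l (n + j * m))) =
          fun n => v n * (l (n + j * m) * l (n + (j + d) * m)) := by
        funext n; ring
      rw [h3]
      refine (tri_W hl hv hvm j d H x).trans ?_
      have h1 : |((j + d : ℕ) : ℝ) - j| = d := by
        push_cast
        rw [show (j : ℝ) + d - j = d by ring, Nat.abs_cast]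
      rw [h1]
      apply mul_le_mul_of_nonneg_left _ (Nat.cast_nonneg d)
      have h2 : ((j + d : ℕ) : ℝ) ≤ J := by exact_mod_cast hi.le
      nlinarith
  have h1 := sum_le_sum fun i hi => sum_le_sum fun j hj => h0 i hi j hj
  have h2 : ∑ i ∈ range J, ∑ j ∈ range J, (W v H x - W (fun n => v n * (l (n + i * m) * l (n + j * m))) H x) =
      (J : ℝ) ^ 2 * W v H x - W (av l v J m) H x := by
    rw [W_av]
    simp only [sum_sub_distrib, sum_const, card_range, nsmul_eq_mul]
    ring
  rw [h2] at h1
  refine h1.trans (le_of_eq ?_)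
  rw [← sum_dist]
  simp only [sum_mul]

/-- the average of the squares -/
lemma av_upper (hl : Pm l) (hv : Wt v) {m : ℕ} (hvm : ∀ n, v (n + m) = v n) (J H N : ℕ) (a δ : ℝ)
    (hδ : 0 ≤ δ) (hJm : ((J * m : ℕ) : ℝ) ≤ δ * H) (ha : ∀ x, W v H x ≤ (a + δ) * H)
    (h : ∀ d, 1 ≤ d → d ≤ J → |∑ x ∈ Icc 1 N, W (pv l v (d * m)) H x| ≤ δ * H * N) :
    ∑ x ∈ Icc 1 N, W (av l v J m) H x ≤ (J * (a + δ) + 3 * δ * J ^ 2) * H * N := by
  simp only [W_av]
  rw [sum_comm]
  have h2 : ∀ i ∈ range J, ∑ x ∈ Icc 1 N, ∑ j ∈ range J, W (fun n => v n * (l (n + i * m) * l (n + j * m))) H x ≤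
      (a + δ + 3 * δ * J) * H * N := by
    intro i hi
    rw [sum_comm, ← add_sum_erase _ _ hi]
    have h3 : ∑ x ∈ Icc 1 N, W (fun n => v n * (l (n + i * m) * l (n + i * m))) H x ≤ (a + δ) * H * N := by
      have : (fun n => v n * (l (n + i * m) * l (n + i * m))) = v := by
        funext n; rw [hl.sq, mul_one]
      rw [this]
      refine (sum_le_sum fun x _ => ha x).trans (le_of_eq ?_)
      simp only [sum_const, Nat.card_Icc, Nat.add_sub_cancel, nsmul_eq_mul]
      ring
    have h4 : ∀ j ∈ (range J).erase i,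
        ∑ x ∈ Icc 1 N, W (fun n => v n * (l (n + i * m) * l (n + j * m))) H x ≤ 3 * δ * H * N := by
      have key : ∀ a d : ℕ, 1 ≤ d → a + d ≤ J →
          ∑ x ∈ Icc 1 N, W (fun n => v n * (l (n + a * m) * l (n + (a + d) * m))) H x ≤ 3 * δ * H * N := by
        intro a d hd hdJ
        have h5 : (fun n => v n * (l (n + a * m) * l (n + (a + d) * m))) = fun n => pv l v (d * m) (n + a * m) := by
          funext n
          unfold pv
          rw [vmul hvm]
          congr 3
          ring
        rw [h5]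
        have h6 : ∀ x, W (fun n => pv l v (d * m) (n + a * m)) H x ≤ W (pv l v (d * m)) H x + 2 * δ * H := by
          intro x
          have h7 := W_shift (pv_abs hl hv (d * m)) (a * m) H x
          have h8 := (abs_le.1 h7).2
          have h9 : ((a * m : ℕ) : ℝ) ≤ δ * H := le_trans (by exact_mod_cast Nat.mul_le_mul_right m (by omega)) hJm
          linarith
        refine (sum_le_sum fun x _ => h6 x).trans ?_
        rw [sum_add_distrib, sum_const, Nat.card_Icc, Nat.add_sub_cancel, nsmul_eq_mul]
        have := (abs_le.1 (h d hd (by omega))).2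
        linarith
      intro j hj
      rw [mem_erase, mem_range] at hj
      rw [mem_range] at hi
      rcases lt_or_gt_of_ne hj.1 with hlt | hlt
      · have h5 := key j (i - j) (by omega) (by omega)
        rw [show j + (i - j) = i by omega] at h5
        have h6 : (fun n => v n * (l (n + i * m) * l (n + j * m))) = fun n => v n * (l (n + j * m) * l (n + i * m)) := by
          funext n; ring
        rw [h6]
        exact h5
      · have h5 := key i (j - i) (by omega) (by omega)
        rwa [show i + (j - i) = j by omega] at h5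
    have h5 := sum_le_sum h4
    rw [sum_const, nsmul_eq_mul] at h5
    have h6 : ((((range J).erase i).card : ℕ) : ℝ) ≤ J := by
      have := card_erase_le (s := range J) (a := i)
      rw [card_range] at this
      exact_mod_cast this
    have h7 : 0 ≤ 3 * δ * H * N := by positivity
    have h8 := mul_le_mul_of_nonneg_right h6 h7
    linarith
  refine (sum_le_sum h2).trans (le_of_eq ?_)
  rw [sum_const, card_range, nsmul_eq_mul]
  ring

end

end Pool.Agent.R318.MU
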